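import Pool.Agent.Helper98.EX.Stmts

/-!
# EX, module TOPTAIL: equilibrium tail from a window-sorted state
-/

namespace Pool.Agent.Helper98.EX

open Finset

variable {N : ℕ}

/-- exchange of the values at two sites -/
def toptail_ex (z x : Fin N) (ξ : Cfg N) : Cfg N := fun i => ξ (Equiv.swap z x i)

theorem toptail_ex_inv (z x : Fin N) : Function.Involutive (toptail_ex z x) := by
  intro ξ
  funext i
  simp [toptail_ex]

theorem toptail_ex_sum (z x : Fin N) (F : Cfg N → ℝ) :
    ∑ ξ : Cfg N, F (toptail_ex z x ξ) = ∑ ξ : Cfg N, F ξ :=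
  Equiv.sum_comp (toptail_ex_inv z x).toPerm F

theorem toptail_swp {x : ℕ} (h1 : 1 ≤ x) (h2 : x < N) (ξ : Cfg N) :
    swp x ξ = toptail_ex ⟨x - 1, by omega⟩ ⟨x, h2⟩ ξ := by
  apply cfg_ext
  intro i hi
  rw [occ_swp h1 h2, occ_lt (η := toptail_ex _ _ ξ) hi]
  unfold toptail_ex
  by_cases hix : i = x
  · subst hix
    rw [if_pos rfl, Equiv.swap_apply_right, occ_lt (by omega)]
  · by_cases hix1 : i + 1 = x
    · have e : (⟨i, hi⟩ : Fin N) = ⟨x - 1, by omega⟩ := by
        apply Fin.ext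
        show i = x - 1
        omega
      rw [if_neg hix, if_pos hix1, e, Equiv.swap_apply_left, occ_lt h2]
    · rw [if_neg hix, if_neg hix1, Equiv.swap_apply_of_ne_of_ne, occ_lt hi]
      · intro h
        have := Fin.ext_iff.1 h
        simp only at this
        omega
      · intro h
        have := Fin.ext_iff.1 h
        simp only at this
        omega

/-- total weight ratio from the left end of the window -/
noncomputable def toptail_W (r l : ℕ → ℝ) (A i : ℕ) : ℝ := ∏ b ∈ Finset.Ioc A i, r b / l b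

theorem toptail_ioc (g : ℕ → ℝ) {A z x : ℕ} (h1 : A ≤ z) (h2 : z ≤ x) :
    ∏ b ∈ Finset.Ioc A x, g b = (∏ b ∈ Finset.Ioc A z, g b) * ∏ b ∈ Finset.Ioc z x, g b :=
  (Finset.prod_Ioc_consecutive g h1 h2).symm

section rates

variable {r l : ℕ → ℝ} {A B : ℕ}

theorem toptail_Wpos (h : Adm N r l) (hl : Pos N l) {i : ℕ} (hi : i < N) :
    0 < toptail_W r l A i := by
  apply Finset.prod_pos
  intro b hb
  rw [Finset.mem_Ioc] at hb
  exact div_pos (h b (by omega) (by omega)).1 (hl b (by omega) (by omega))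

theorem toptail_RR (h : Adm N r l) (hl : Pos N l) {z x : ℕ} (h1 : A ≤ z) (h2 : z ≤ x)
    (h3 : x < N) : RR r l z x * toptail_W r l A x = toptail_W r l A z := by
  unfold RR toptail_W
  rw [toptail_ioc (fun b => r b / l b) h1 h2, mul_left_comm, ← Finset.prod_mul_distrib]
  have : ∏ b ∈ Finset.Ioc z x, (l b / r b * (r b / l b)) = 1 := by
    apply Finset.prod_eq_one
    intro b hb
    rw [Finset.mem_Ioc] at hb
    have hr := (h b (by omega) (by omega)).1
    have hl' := hl b (by omega) (by omega)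
    field_simp
  rw [this, mul_one]

theorem toptail_RRnn (h : Adm N r l) {z x : ℕ} (h3 : x < N) : 0 ≤ RR r l z x := by
  apply Finset.prod_nonneg
  intro b hb
  rw [Finset.mem_Ioc] at hb
  obtain ⟨a, -, c, -⟩ := h b (by omega) (by omega)
  exact div_nonneg c a.le

theorem toptail_Wstep {x : ℕ} (hx : A < x) :
    toptail_W r l A x = toptail_W r l A (x - 1) * (r x / l x) := by
  unfold toptail_W
  have e : Finset.Ioc A x = Finset.Ioc A (x - 1 + 1) := by
    congr 1
    omega
  rw [e, ← Finset.insert_Ioc_right_eq_Ioc_add_one (by omega), Finset.prod_insert, mul_comm]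
  · congr 2 <;> congr 1 <;> omega
  · simp

end rates

/-! ### the window states -/

theorem toptail_ht0 (ξ : Cfg N) : ht ξ 0 = ∑ i : Fin N, (if ξ i = true then 1 else 0) := by
  unfold ht
  rw [← Finset.range_eq_Ico, Finset.sum_range]
  apply Finset.sum_congr rfl
  intro i _
  rw [occ_fin]

theorem toptail_ht_ex (z x : Fin N) (ξ : Cfg N) : ht (toptail_ex z x ξ) 0 = ht ξ 0 := by
  rw [toptail_ht0, toptail_ht0]
  exact Equiv.sum_comp (Equiv.swap z x) (fun i => if ξ i = true then 1 else 0)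

/-- states of the window -/
def toptail_C (A B : ℕ) (η ξ : Cfg N) : Prop :=
  (∀ i : Fin N, (i.val < A ∨ B ≤ i.val) → ξ i = η i) ∧ ht ξ 0 = ht η 0

theorem toptail_C_ex {A B : ℕ} (η : Cfg N) {z x : Fin N} (hz : A ≤ z.val ∧ z.val < B)
    (hx : A ≤ x.val ∧ x.val < B) (ξ : Cfg N) (h : toptail_C A B η ξ) :
    toptail_C A B η (toptail_ex z x ξ) := by
  refine ⟨fun i hi => ?_, (toptail_ht_ex z x ξ).trans h.2⟩
  unfold toptail_ex
  rw [Equiv.swap_apply_of_ne_of_ne]
  · exact h.1 i hi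
  · rintro rfl
    omega
  · rintro rfl
    omega

open Classical in
/-- weights of the window states -/
noncomputable def toptail_pi (r l : ℕ → ℝ) (A B : ℕ) (η ξ : Cfg N) : ℝ :=
  if toptail_C A B η ξ then
    ∏ i : Fin N, (if A ≤ i.val ∧ i.val < B ∧ ξ i = true then toptail_W r l A i.val else 1)
  else 0

section weights

variable {r l : ℕ → ℝ} {A B : ℕ} {η : Cfg N}

theorem toptail_pi_nn (h : Adm N r l) (hl : Pos N l) (ξ : Cfg N) :
    0 ≤ toptail_pi r l A B η ξ := by
  unfold toptail_pi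
  split_ifs
  · apply Finset.prod_nonneg
    intro i _
    split_ifs
    · exact (toptail_Wpos h hl i.isLt).le
    · exact zero_le_one
  · exact le_rfl

theorem toptail_pi_pos (h : Adm N r l) (hl : Pos N l) : 0 < toptail_pi r l A B η η := by
  unfold toptail_pi
  rw [if_pos ⟨fun _ _ => rfl, rfl⟩]
  apply Finset.prod_pos
  intro i _
  split_ifs
  · exact toptail_Wpos h hl i.isLt
  · exact zero_lt_one

theorem toptail_prod (φ : Fin N → Bool → ℝ) {z x : Fin N} (hzx : z ≠ x) (ζ : Cfg N) :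
    ∏ i, φ i (ζ i) = φ z (ζ z) * (φ x (ζ x) *
      ∏ i ∈ (Finset.univ.erase z).erase x, φ i (ζ i)) := by
  rw [Finset.mul_prod_erase (Finset.univ.erase z) (fun i => φ i (ζ i))
      (Finset.mem_erase.2 ⟨hzx.symm, Finset.mem_univ x⟩),
    Finset.mul_prod_erase Finset.univ (fun i => φ i (ζ i)) (Finset.mem_univ z)]

theorem toptail_pi_ex {z x : Fin N} (hzx : z ≠ x) (hz : A ≤ z.val ∧ z.val < B)
    (hx : A ≤ x.val ∧ x.val < B) (ξ : Cfg N) (h1 : ξ z = true) (h2 : ξ x = false) :
    toptail_pi r l A B η ξ * toptail_W r l A x.val =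
      toptail_pi r l A B η (toptail_ex z x ξ) * toptail_W r l A z.val := by
  unfold toptail_pi
  by_cases hC : toptail_C A B η ξ
  · rw [if_pos hC, if_pos (toptail_C_ex η hz hx ξ hC)]
    have e1 := toptail_prod (fun i b => if A ≤ i.val ∧ i.val < B ∧ b = true then
      toptail_W r l A i.val else 1) hzx ξ
    have e2 := toptail_prod (fun i b => if A ≤ i.val ∧ i.val < B ∧ b = true then
      toptail_W r l A i.val else 1) hzx (toptail_ex z x ξ)
    have e3 : ∏ i ∈ (Finset.univ.erase z).erase x, (if A ≤ i.val ∧ i.val < B ∧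
        toptail_ex z x ξ i = true then toptail_W r l A i.val else 1) =
        ∏ i ∈ (Finset.univ.erase z).erase x, (if A ≤ i.val ∧ i.val < B ∧
        ξ i = true then toptail_W r l A i.val else 1) := by
      apply Finset.prod_congr rfl
      intro i hi
      rw [Finset.mem_erase, Finset.mem_erase] at hi
      unfold toptail_ex
      rw [Equiv.swap_apply_of_ne_of_ne hi.2.1 hi.1]
    have e4 : toptail_ex z x ξ z = false := by
      unfold toptail_ex
      rw [Equiv.swap_apply_left, h2]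
    have e5 : toptail_ex z x ξ x = true := by
      unfold toptail_ex
      rw [Equiv.swap_apply_right, h1]
    simp only [e3, e4, e5, h1, h2] at e1 e2
    rw [e1, e2, if_pos ⟨hz.1, hz.2, trivial⟩, if_neg (by simp), if_neg (by simp),
      if_pos ⟨hx.1, hx.2, trivial⟩]
    ring
  · rw [if_neg hC, if_neg, zero_mul, zero_mul]
    intro hC'
    apply hC
    have := toptail_C_ex η hz hx _ hC'
    rwa [toptail_ex_inv z x ξ] at this

/-- stationarity for one bond -/
theorem toptail_bond (h : Adm N r l) (hl : Pos N l) (hB : B ≤ N) {x : ℕ} (hx : A < x ∧ x < B)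
    (g : Cfg N → ℝ) : ∑ ξ : Cfg N, toptail_pi r l A B η ξ *
      (r x * (g (Rm x ξ) - g ξ) + l x * (g (Lm x ξ) - g ξ)) = 0 := by
  have hx1 : 1 ≤ x := by omega
  have hxN : x < N := by omega
  set e : Cfg N → Cfg N := toptail_ex ⟨x - 1, by omega⟩ ⟨x, hxN⟩ with he
  have hsw : ∀ ξ, swp x ξ = e ξ := fun ξ => toptail_swp hx1 hxN ξ
  have hee : ∀ ξ, e (e ξ) = ξ := toptail_ex_inv _ _
  have hne : (⟨x - 1, by omega⟩ : Fin N) ≠ ⟨x, hxN⟩ := by
    intro hh
    have := Fin.ext_iff.1 hh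
    simp only at this
    omega
  have hz' : A ≤ (⟨x - 1, by omega⟩ : Fin N).val ∧ (⟨x - 1, by omega⟩ : Fin N).val < B := by
    constructor
    · show A ≤ x - 1
      omega
    · show x - 1 < B
      omega
  have hocc1 : ∀ ξ, occ (e ξ) (x - 1) = occ ξ x := by
    intro ξ
    rw [← hsw]
    exact occ_swp_pred hx1 hxN ξ
  have hocc2 : ∀ ξ, occ (e ξ) x = occ ξ (x - 1) := by
    intro ξ
    rw [← hsw]
    exact occ_swp_self hx1 hxN ξ
  have hW := toptail_Wstep (r := r) (l := l) hx.1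
  have hl0 := hl x hx1 hxN
  have hWp : 0 < toptail_W r l A (x - 1) := toptail_Wpos h hl (by omega)
  have hbal : ∀ ξ, occ ξ (x - 1) = true → occ ξ x = false →
      toptail_pi r l A B η ξ * r x = toptail_pi r l A B η (e ξ) * l x := by
    intro ξ h1 h2
    rw [occ_lt (by omega)] at h1
    rw [occ_lt hxN] at h2
    have h3 := toptail_pi_ex (r := r) (l := l) (η := η) hne hz' ⟨hx.1.le, hx.2⟩ ξ h1 h2
    have h3' : toptail_pi r l A B η ξ * toptail_W r l A x =
      toptail_pi r l A B η (e ξ) * toptail_W r l A (x - 1) := h3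
    rw [hW] at h3'
    have h4 : toptail_pi r l A B η ξ * (r x / l x) = toptail_pi r l A B η (e ξ) := by
      apply mul_right_cancel₀ hWp.ne'
      rw [← h3']
      ring
    rw [← h4]
    field_simp
  have hsum : ∑ ξ : Cfg N, toptail_pi r l A B η ξ * (l x * (g (Lm x ξ) - g ξ)) =
      ∑ ξ : Cfg N, toptail_pi r l A B η (e ξ) * (l x * (g (Lm x (e ξ)) - g (e ξ))) :=
    (toptail_ex_sum _ _ _).symm
  have hsplit : ∑ ξ : Cfg N, toptail_pi r l A B η ξ *
      (r x * (g (Rm x ξ) - g ξ) + l x * (g (Lm x ξ) - g ξ)) =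
      ∑ ξ : Cfg N, (toptail_pi r l A B η ξ * (r x * (g (Rm x ξ) - g ξ)) +
        toptail_pi r l A B η (e ξ) * (l x * (g (Lm x (e ξ)) - g (e ξ)))) := by
    rw [Finset.sum_add_distrib, ← hsum, ← Finset.sum_add_distrib]
    apply Finset.sum_congr rfl
    intro ξ _
    ring
  rw [hsplit]
  apply Finset.sum_eq_zero
  intro ξ _
  by_cases hc : occ ξ (x - 1) = true ∧ occ ξ x = false
  · have h1 : Rm x ξ = e ξ := by
      unfold Rm
      rw [if_pos ⟨hx1, hxN, hc.1, hc.2⟩, hsw]
    have h2 : Lm x (e ξ) = ξ := by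
      unfold Lm
      rw [if_pos ⟨hx1, hxN, by rw [hocc1]; exact hc.2, by rw [hocc2]; exact hc.1⟩, hsw, hee]
    rw [h1, h2]
    have := hbal ξ hc.1 hc.2
    calc _ = (toptail_pi r l A B η ξ * r x) * (g (e ξ) - g ξ) +
          (toptail_pi r l A B η (e ξ) * l x) * (g ξ - g (e ξ)) := by ring
      _ = 0 := by rw [this]; ring
  · have h1 : Rm x ξ = ξ := by
      unfold Rm
      rw [if_neg (fun hh => hc ⟨hh.2.2.1, hh.2.2.2⟩)]
    have h2 : Lm x (e ξ) = e ξ := by
      unfold Lm
      rw [if_neg]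
      rintro ⟨-, -, h3, h4⟩
      rw [hocc1] at h3
      rw [hocc2] at h4
      exact hc ⟨h4, h3⟩
    rw [h1, h2]
    ring

theorem toptail_stp (h : Adm N r l) (hl : Pos N l) (hB : B ≤ N) {S : Finset ℕ}
    (hS : S ⊆ Finset.Ioo A B) (g : Cfg N → ℝ) :
    ∑ ξ : Cfg N, toptail_pi r l A B η ξ * stp r l S g ξ =
      ∑ ξ : Cfg N, toptail_pi r l A B η ξ * g ξ := by
  have e : ∀ ξ : Cfg N, toptail_pi r l A B η ξ * stp r l S g ξ =
      toptail_pi r l A B η ξ * g ξ + (∑ x ∈ S, toptail_pi r l A B η ξ *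
        (r x * (g (Rm x ξ) - g ξ) + l x * (g (Lm x ξ) - g ξ))) / (2 * N) := by
    intro ξ
    rw [stp_open, mul_add, ← mul_div_assoc, Finset.mul_sum]
  rw [Finset.sum_congr rfl (fun ξ _ => e ξ), Finset.sum_add_distrib, ← Finset.sum_div,
    Finset.sum_comm]
  have h0 : ∑ x ∈ S, ∑ ξ : Cfg N, toptail_pi r l A B η ξ *
        (r x * (g (Rm x ξ) - g ξ) + l x * (g (Lm x ξ) - g ξ)) = 0 := by
    apply Finset.sum_eq_zero
    intro x hx
    exact toptail_bond h hl hB (Finset.mem_Ioo.1 (hS hx)) g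
  rw [h0, zero_div, add_zero]

theorem toptail_ev (h : Adm N r l) (hl : Pos N l) (hB : B ≤ N) (σ : ℕ → Finset ℕ)
    (hS : ∀ i, σ i ⊆ Finset.Ioo A B) (j : ℕ) (g : Cfg N → ℝ) :
    ∑ ξ : Cfg N, toptail_pi r l A B η ξ * ev r l σ j g ξ =
      ∑ ξ : Cfg N, toptail_pi r l A B η ξ * g ξ := by
  induction j generalizing σ with
  | zero => rfl
  | succ j ih =>
    simp only [ev_succ]
    rw [toptail_stp h hl hB (hS 0)]
    exact ih _ fun i => hS (i + 1)

end weights

/-! ### geometry of the window states -/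

section geom

variable {A B x0 : ℕ} {η ξ : Cfg N}

theorem toptail_occ_eq (h : toptail_C A B η ξ) {i : ℕ} (hi : i < A ∨ B ≤ i) :
    occ ξ i = occ η i := by
  rcases lt_or_ge i N with hN | hN
  · rw [occ_lt hN, occ_lt hN]
    exact h.1 ⟨i, hN⟩ hi
  · rw [occ_ge hN, occ_ge hN]

theorem toptail_htB (h : toptail_C A B η ξ) {y : ℕ} (hy : B ≤ y) : ht ξ y = ht η y := by
  unfold ht
  apply Finset.sum_congr rfl
  intro i hi
  rw [Finset.mem_Ico] at hi
  rw [toptail_occ_eq h (Or.inr (hy.trans hi.1))]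

theorem toptail_cntA (h : toptail_C A B η ξ) (y : ℕ) : cnt ξ y A = cnt η y A := by
  unfold cnt
  apply Finset.sum_congr rfl
  intro i hi
  rw [Finset.mem_Ico] at hi
  rw [toptail_occ_eq h (Or.inl hi.2)]

theorem toptail_htA (h : toptail_C A B η ξ) (hA : A ≤ N) : ht ξ A = ht η A := by
  have h1 := ht_cnt ξ (Nat.zero_le A) hA
  have h2 := ht_cnt η (Nat.zero_le A) hA
  have h3 := toptail_cntA h 0
  have h4 := h.2
  omega

theorem toptail_run {ζ : Cfg N} {u v : ℕ} (huv : u ≤ v) (hv : v ≤ N)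
    (h : ∀ i, u ≤ i → i < v → occ ζ i = true) : ht ζ u = ht ζ v + (v - u) := by
  have key : ∀ d, u + d ≤ v → ht ζ (v - d) = ht ζ v + d := by
    intro d
    induction d with
    | zero => intro _; simp
    | succ d ih =>
      intro hd
      have e : v - (d + 1) + 1 = v - d := by omega
      have h1 := (occ_iff_ht ζ (by omega : v - (d + 1) < N)).1 (h _ (by omega) (by omega))
      rw [h1, e, ih (by omega)]
      omega
  have := key (v - u) (by omega)
  rwa [Nat.sub_sub_self huv] at this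

theorem toptail_empty {ζ : Cfg N} {u v : ℕ} (huv : u ≤ v) (hv : v ≤ N)
    (h : ∀ i, u ≤ i → i < v → occ ζ i = false) : ht ζ u = ht ζ v := by
  have key : ∀ d, u + d ≤ v → ht ζ (v - d) = ht ζ v := by
    intro d
    induction d with
    | zero => intro _; simp
    | succ d ih =>
      intro hd
      have e : v - (d + 1) + 1 = v - d := by omega
      have h1 := (not_occ_iff_ht ζ (by omega : v - (d + 1) < N)).1 (h _ (by omega) (by omega))
      rw [h1, e, ih (by omega)]
  have := key (v - u) (by omega)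
  rwa [Nat.sub_sub_self huv] at this

theorem toptail_htη (h : η ∈ (sorted A x0 x0 B : Set (Cfg N))) (h1 : A ≤ x0) (h2 : x0 ≤ B)
    (hB : B ≤ N) : ht η A = ht η B + (B - x0) ∧ ∀ y, A ≤ y → y ≤ B →
      ht η y = ht η B + min (B - y) (B - x0) := by
  have a : ht η x0 = ht η B + (B - x0) := toptail_run h2 hB h.2
  have b : ht η A = ht η x0 := toptail_empty h1 (by omega) h.1
  refine ⟨by omega, fun y hy1 hy2 => ?_⟩
  rcases le_total y x0 with hy | hy
  · have c : ht η y = ht η x0 := toptail_empty hy (by omega) fun i h3 h4 => h.1 i (by omega) h4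
    rw [c, a, min_eq_right (by omega)]
  · have c : ht η y = ht η B + (B - y) := toptail_run hy2 hB fun i h3 h4 => h.2 i (by omega) h4
    rw [c, min_eq_left (by omega)]

theorem toptail_le (h : η ∈ (sorted A x0 x0 B : Set (Cfg N))) (h1 : A ≤ x0) (h2 : x0 ≤ B)
    (hB : B ≤ N) (hC : toptail_C A B η ξ) : hle 0 ξ η := by
  intro y
  rw [add_zero]
  obtain ⟨a, b⟩ := toptail_htη h h1 h2 hB
  rcases le_total B y with hy | hy
  · rw [toptail_htB hC hy]
  · rcases le_total A y with hy' | hy'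
    · rw [b y hy' hy]
      have c := ht_le_sub ξ hy
      have d := toptail_htB hC (le_refl B)
      have e := toptail_htA hC (by omega : A ≤ N)
      have f := ht_anti ξ hy'
      omega
    · have c := ht_cnt ξ hy' (by omega : A ≤ N)
      have d := ht_cnt η hy' (by omega : A ≤ N)
      have e := toptail_htA hC (by omega : A ≤ N)
      have f := toptail_cntA hC y
      omega

theorem toptail_hole (hC : toptail_C A B η ξ) (h : η ∈ (sorted A x0 x0 B : Set (Cfg N)))
    (h1 : A ≤ x0) (h2 : x0 ≤ B) (hB : B ≤ N) {z : ℕ} (hz1 : A ≤ z) (hz2 : z < x0)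
    (hz : occ ξ z = true) : ∃ x, x0 ≤ x ∧ x < B ∧ occ ξ x = false := by
  by_contra hno
  have hno' : ∀ x, x0 ≤ x → x < B → occ ξ x = true := by
    intro x h3 h4
    by_contra h5
    exact hno ⟨x, h3, h4, by simpa using h5⟩
  have a := toptail_run h2 hB hno'
  have b := (toptail_htη h h1 h2 hB).1
  have c := toptail_htA hC (by omega : A ≤ N)
  have d := toptail_htB hC (le_refl B)
  have e := (occ_iff_ht ξ (by omega : z < N)).1 hz
  have f := ht_anti ξ hz1
  have g := ht_anti ξ (by omega : z + 1 ≤ x0)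
  omega

theorem toptail_part (hC : toptail_C A B η ξ) (h : η ∈ (sorted A x0 x0 B : Set (Cfg N)))
    (h1 : A ≤ x0) (h2 : x0 ≤ B) (hB : B ≤ N) {x : ℕ} (hx1 : x0 ≤ x) (hx2 : x < B)
    (hx : occ ξ x = false) : ∃ z, A ≤ z ∧ z < x0 ∧ occ ξ z = true := by
  by_contra hno
  have hno' : ∀ z, A ≤ z → z < x0 → occ ξ z = false := by
    intro z h3 h4
    by_contra h5
    exact hno ⟨z, h3, h4, by simpa using h5⟩
  have a := toptail_empty h1 (by omega) hno'
  have b := (toptail_htη h h1 h2 hB).1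
  have c := toptail_htA hC (by omega : A ≤ N)
  have d := toptail_htB hC (le_refl B)
  have e := (not_occ_iff_ht ξ (by omega : x < N)).1 hx
  have f := ht_le_sub ξ hx1
  have g := ht_le_sub ξ (by omega : x + 1 ≤ B)
  omega

end geom

theorem toptail_indc {S : Set (Cfg N)} {a : Cfg N} (ha : a ∈ S) : ind Sᶜ a = 0 := by
  apply ind_of_not_mem
  intro hc
  exact hc ha

/-- probability weight of a particle at `z` and a hole at `x` -/
noncomputable def toptail_t (z x : ℕ) (ξ : Cfg N) : ℝ :=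
  if occ ξ z = true ∧ occ ξ x = false then 1 else 0

theorem toptail_t_nn (z x : ℕ) (ξ : Cfg N) : 0 ≤ toptail_t z x ξ := by
  unfold toptail_t
  split_ifs <;> norm_num

section final

variable {r l : ℕ → ℝ} {A B x0 q1 q2 : ℕ} {η : Cfg N}

theorem toptail_pair (h : Adm N r l) (hl : Pos N l) (hB : B ≤ N) {z x : ℕ} (hz : A ≤ z)
    (hzx : z < x) (hx : x < B) :
    ∑ ξ : Cfg N, toptail_pi r l A B η ξ * toptail_t z x ξ ≤
      RR r l z x * ∑ ξ : Cfg N, toptail_pi r l A B η ξ := by
  have hzN : z < N := by omega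
  have hxN : x < N := by omega
  have hne : (⟨z, hzN⟩ : Fin N) ≠ ⟨x, hxN⟩ := by
    intro hh
    have := Fin.ext_iff.1 hh
    simp only at this
    omega
  have hWx : 0 < toptail_W r l A x := toptail_Wpos h hl hxN
  have hRR := toptail_RR h hl hz hzx.le hxN
  have hnn := toptail_RRnn (z := z) h hxN
  rw [← toptail_ex_sum ⟨z, hzN⟩ ⟨x, hxN⟩ (fun ξ => toptail_pi r l A B η ξ), Finset.mul_sum]
  apply Finset.sum_le_sum
  intro ξ _
  unfold toptail_t
  split_ifs with hc
  · rw [mul_one]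
    have h1 := hc.1
    have h2 := hc.2
    rw [occ_lt hzN] at h1
    rw [occ_lt hxN] at h2
    have h3 := toptail_pi_ex (r := r) (l := l) (η := η) (A := A) (B := B) hne ⟨hz, by
      show z < B
      omega⟩ ⟨by
      show A ≤ x
      omega, hx⟩ ξ h1 h2
    have h3' : toptail_pi r l A B η ξ * toptail_W r l A x =
      toptail_pi r l A B η (toptail_ex ⟨z, hzN⟩ ⟨x, hxN⟩ ξ) * toptail_W r l A z := h3
    apply le_of_eq
    apply mul_right_cancel₀ hWx.ne'
    rw [h3', ← hRR]
    ring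
  · rw [mul_zero]
    exact mul_nonneg hnn (toptail_pi_nn h hl _)

theorem toptail_E (h : Adm N r l) (hl : Pos N l) (h1 : A ≤ q1) (h2 : q1 ≤ x0) (h3 : x0 ≤ q2)
    (h4 : q2 ≤ B) (hB : B ≤ N) (hη : η ∈ (sorted A x0 x0 B : Set (Cfg N))) (ξ : Cfg N) :
    toptail_pi r l A B η ξ * ind (sorted A q1 q2 B)ᶜ ξ ≤
      ∑ z ∈ Finset.Ico A q1, ∑ x ∈ Finset.Ico x0 B, toptail_pi r l A B η ξ * toptail_t z x ξ +
      ∑ z ∈ Finset.Ico A x0, ∑ x ∈ Finset.Ico q2 B,
        toptail_pi r l A B η ξ * toptail_t z x ξ := by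
  have hp := toptail_pi_nn (A := A) (B := B) (η := η) h hl ξ
  have hnn : ∀ z x, 0 ≤ toptail_pi r l A B η ξ * toptail_t z x ξ := fun z x =>
    mul_nonneg hp (toptail_t_nn z x ξ)
  have s1 : 0 ≤ ∑ z ∈ Finset.Ico A q1, ∑ x ∈ Finset.Ico x0 B,
      toptail_pi r l A B η ξ * toptail_t z x ξ :=
    Finset.sum_nonneg fun z _ => Finset.sum_nonneg fun x _ => hnn z x
  have s2 : 0 ≤ ∑ z ∈ Finset.Ico A x0, ∑ x ∈ Finset.Ico q2 B,
      toptail_pi r l A B η ξ * toptail_t z x ξ :=
    Finset.sum_nonneg fun z _ => Finset.sum_nonneg fun x _ => hnn z x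
  have hsingle : ∀ (I J : Finset ℕ) (z x : ℕ), z ∈ I → x ∈ J → occ ξ z = true →
      occ ξ x = false → toptail_pi r l A B η ξ ≤
        ∑ z ∈ I, ∑ x ∈ J, toptail_pi r l A B η ξ * toptail_t z x ξ := by
    intro I J z x hz hx hoz hox
    have a1 : toptail_pi r l A B η ξ = toptail_pi r l A B η ξ * toptail_t z x ξ := by
      unfold toptail_t
      rw [if_pos ⟨hoz, hox⟩, mul_one]
    have a2 : toptail_pi r l A B η ξ * toptail_t z x ξ ≤
        ∑ x ∈ J, toptail_pi r l A B η ξ * toptail_t z x ξ :=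
      Finset.single_le_sum (f := fun x => toptail_pi r l A B η ξ * toptail_t z x ξ)
        (fun x _ => hnn z x) hx
    have a3 : ∑ x ∈ J, toptail_pi r l A B η ξ * toptail_t z x ξ ≤
        ∑ z ∈ I, ∑ x ∈ J, toptail_pi r l A B η ξ * toptail_t z x ξ :=
      Finset.single_le_sum
        (f := fun z => ∑ x ∈ J, toptail_pi r l A B η ξ * toptail_t z x ξ)
        (fun z _ => Finset.sum_nonneg fun x _ => hnn z x) hz
    exact (a1.le.trans a2).trans a3
  by_cases hE : ξ ∈ (sorted A q1 q2 B)ᶜ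
  · rw [ind_of_mem hE, mul_one]
    by_cases hC : toptail_C A B η ξ
    · have hE' : (∃ i, A ≤ i ∧ i < q1 ∧ occ ξ i = true) ∨
          ∃ i, q2 ≤ i ∧ i < B ∧ occ ξ i = false := by
        by_contra hno
        apply hE
        refine ⟨fun i a b => ?_, fun i a b => ?_⟩
        · by_contra hc
          exact hno (Or.inl ⟨i, a, b, by simpa using hc⟩)
        · by_contra hc
          exact hno (Or.inr ⟨i, a, b, by simpa using hc⟩)
      rcases hE' with ⟨z, z1, z2, hz⟩ | ⟨x, x1, x2, hx⟩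
      · obtain ⟨x, x1, x2, hx⟩ := toptail_hole hC hη (by omega) (by omega) hB z1 (by omega) hz
        have := hsingle (Finset.Ico A q1) (Finset.Ico x0 B) z x (Finset.mem_Ico.2 ⟨z1, z2⟩)
          (Finset.mem_Ico.2 ⟨x1, x2⟩) hz hx
        linarith
      · obtain ⟨z, z1, z2, hz⟩ := toptail_part hC hη (by omega) (by omega) hB
          (by omega : x0 ≤ x) x2 hx
        have := hsingle (Finset.Ico A x0) (Finset.Ico q2 B) z x (Finset.mem_Ico.2 ⟨z1, z2⟩)
          (Finset.mem_Ico.2 ⟨x1, x2⟩) hz hx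
        linarith
    · have : toptail_pi r l A B η ξ = 0 := by
        unfold toptail_pi
        rw [if_neg hC]
      rw [this] at s1 s2 ⊢
      linarith
  · rw [ind_of_not_mem hE, mul_zero]
    linarith

theorem toptail_couple (h : Adm N r l) (σ : ℕ → Finset ℕ) (j : ℕ)
    (hσ : ∀ i, A ∉ σ i ∧ B ∉ σ i) (h1 : A ≤ q1) (h12 : q1 ≤ B) (h4 : q2 ≤ B)
    (hB : B ≤ N) {ξ : Cfg N} (hle0 : hle 0 ξ η) (hA : ht η A = ht ξ A) (hBB : ht η B = ht ξ B) :
    pr r l σ j (sorted A q1 q2 B)ᶜ η ≤ pr r l σ j (sorted A q1 q2 B)ᶜ ξ := by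
  unfold pr
  refine ev_couple h σ σ j (fun _ a b => hle 0 b a ∧ ht a A = ht b A ∧ ht a B = ht b B)
    ?_ ?_ ?_ ?_ ⟨hle0, hA, hBB⟩
  · intro i a b _ hab
    exact hab
  · intro i a b x _ _ _ hab
    refine ⟨hle_RmS hab.1 _ _, ?_, ?_⟩
    · unfold RmS
      split_ifs with hx
      · have : A ≠ x := fun e => (hσ i).1 (e ▸ hx)
        rw [ht_Rm_ne a this, ht_Rm_ne b this]
        exact hab.2.1
      · exact hab.2.1
    · unfold RmS
      split_ifs with hx
      · have : B ≠ x := fun e => (hσ i).2 (e ▸ hx)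
        rw [ht_Rm_ne a this, ht_Rm_ne b this]
        exact hab.2.2
      · exact hab.2.2
  · intro i a b x _ _ _ hab
    refine ⟨hle_LmS hab.1 _ _, ?_, ?_⟩
    · unfold LmS
      split_ifs with hx
      · have : A ≠ x := fun e => (hσ i).1 (e ▸ hx)
        rw [ht_Lm_ne a this, ht_Lm_ne b this]
        exact hab.2.1
      · exact hab.2.1
    · unfold LmS
      split_ifs with hx
      · have : B ≠ x := fun e => (hσ i).2 (e ▸ hx)
        rw [ht_Lm_ne a this, ht_Lm_ne b this]
        exact hab.2.2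
      · exact hab.2.2
  · intro a b hab
    obtain ⟨c1, c2, c3⟩ := hab
    by_cases hb : b ∈ (sorted A q1 q2 B : Set (Cfg N))ᶜ
    · rw [ind_of_mem hb]
      exact ind_le_one _ _
    · have hb' : b ∈ (sorted A q1 q2 B : Set (Cfg N)) := by
        by_contra hc
        exact hb hc
      have ha : a ∈ (sorted A q1 q2 B : Set (Cfg N)) := by
        have d1 : ht b A = ht b q1 := toptail_empty h1 (by omega) hb'.1
        have d2 : ht b q2 = ht b B + (B - q2) := toptail_run h4 hB hb'.2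
        refine ⟨fun i i1 i2 => ?_, fun i i1 i2 => ?_⟩
        · rw [not_occ_iff_ht a (by omega)]
          have e1 := ht_anti a i1
          have e2 := ht_anti a (by omega : i + 1 ≤ q1)
          have e3 := c1 q1
          have e4 := ht_succ_le a i
          omega
        · rw [occ_iff_ht a (by omega)]
          have e1 := ht_le_sub a i1
          have e2 := ht_le_sub a (by omega : i + 1 ≤ B)
          have e3 := c1 q2
          have e4 := ht_le_succ a i
          omega
      rw [toptail_indc ha, toptail_indc hb']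

end final

theorem st_TOPTAIL (hLOC : ST_LOC) : ST_TOPTAIL := by
  intro N r l σ j A q1 x0 q2 B η h hl h1 h2 h3 h4 hB hσ hη
  -- only the bonds in the window matter
  have hloc : ∀ ζ : Cfg N, pr r l σ j (sorted A q1 q2 B)ᶜ ζ =
      pr r l (fun i => σ i ∩ Finset.Ioo A B) j (sorted A q1 q2 B)ᶜ ζ := by
    intro ζ
    refine hLOC.2.2 N r l σ j A B (ind (sorted A q1 q2 B)ᶜ) ζ hσ ?_
    intro a b hab
    have key : ∀ a b : Cfg N, (∀ x, A ≤ x → x < B → occ a x = occ b x) →
        a ∈ (sorted A q1 q2 B : Set (Cfg N)) → b ∈ (sorted A q1 q2 B : Set (Cfg N)) := by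
      intro a b hab ha
      refine ⟨fun i i1 i2 => ?_, fun i i1 i2 => ?_⟩
      · rw [← hab i i1 (by omega)]
        exact ha.1 i i1 i2
      · rw [← hab i (by omega) i2]
        exact ha.2 i i1 i2
    by_cases ha : a ∈ (sorted A q1 q2 B : Set (Cfg N))
    · rw [toptail_indc ha, toptail_indc (key a b hab ha)]
    · have hb : b ∉ (sorted A q1 q2 B : Set (Cfg N)) := fun hb =>
        ha (key b a (fun x x1 x2 => (hab x x1 x2).symm) hb)
      rw [ind_of_mem (show a ∈ (sorted A q1 q2 B : Set (Cfg N))ᶜ from ha),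
        ind_of_mem (show b ∈ (sorted A q1 q2 B : Set (Cfg N))ᶜ from hb)]
  have hσ' : ∀ i, A ∉ σ i ∩ Finset.Ioo A B ∧ B ∉ σ i ∩ Finset.Ioo A B := by
    intro i
    constructor
    · intro hc
      exact (hσ i).1 (Finset.mem_inter.1 hc).1
    · intro hc
      exact (hσ i).2 (Finset.mem_inter.1 hc).1
  rw [hloc]
  have hev := toptail_ev (η := η) h hl hB (fun i => σ i ∩ Finset.Ioo A B)
    (fun i => Finset.inter_subset_right) j (ind (sorted A q1 q2 B)ᶜ)
  have hZ : 0 < ∑ ξ : Cfg N, toptail_pi r l A B η ξ := by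
    refine lt_of_lt_of_le (toptail_pi_pos (A := A) (B := B) (η := η) h hl) ?_
    exact Finset.single_le_sum (f := fun ξ => toptail_pi r l A B η ξ)
      (fun ξ _ => toptail_pi_nn h hl ξ) (Finset.mem_univ η)
  have hmono : ∀ ξ : Cfg N, toptail_pi r l A B η ξ *
      pr r l (fun i => σ i ∩ Finset.Ioo A B) j (sorted A q1 q2 B)ᶜ η ≤
      toptail_pi r l A B η ξ *
      pr r l (fun i => σ i ∩ Finset.Ioo A B) j (sorted A q1 q2 B)ᶜ ξ := by
    intro ξ
    by_cases hC : toptail_C A B η ξ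
    · apply mul_le_mul_of_nonneg_left _ (toptail_pi_nn h hl ξ)
      exact toptail_couple h _ j hσ' h1 (by omega) h4 hB
        (toptail_le hη (by omega) (by omega) hB hC) (toptail_htA hC (by omega)).symm
        (toptail_htB hC le_rfl).symm
    · have : toptail_pi r l A B η ξ = 0 := by
        unfold toptail_pi
        rw [if_neg hC]
      rw [this, zero_mul, zero_mul]
  have hsum : (∑ ξ : Cfg N, toptail_pi r l A B η ξ) *
      pr r l (fun i => σ i ∩ Finset.Ioo A B) j (sorted A q1 q2 B)ᶜ η ≤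
      ∑ ξ : Cfg N, toptail_pi r l A B η ξ * ind (sorted A q1 q2 B)ᶜ ξ := by
    rw [← hev, Finset.sum_mul]
    exact Finset.sum_le_sum fun ξ _ => hmono ξ
  have hE : ∑ ξ : Cfg N, toptail_pi r l A B η ξ * ind (sorted A q1 q2 B)ᶜ ξ ≤
      (∑ z ∈ Finset.Ico A q1, ∑ x ∈ Finset.Ico x0 B, RR r l z x +
        ∑ z ∈ Finset.Ico A x0, ∑ x ∈ Finset.Ico q2 B, RR r l z x) *
        ∑ ξ : Cfg N, toptail_pi r l A B η ξ := by
    refine (Finset.sum_le_sum fun ξ _ => toptail_E h hl h1 h2 h3 h4 hB hη ξ).trans ?_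
    rw [Finset.sum_add_distrib, add_mul]
    have key : ∀ I J : Finset ℕ, (∀ z ∈ I, ∀ x ∈ J, A ≤ z ∧ z < x ∧ x < B) →
        ∑ ξ : Cfg N, ∑ z ∈ I, ∑ x ∈ J, toptail_pi r l A B η ξ * toptail_t z x ξ ≤
          (∑ z ∈ I, ∑ x ∈ J, RR r l z x) * ∑ ξ : Cfg N, toptail_pi r l A B η ξ := by
      intro I J hIJ
      rw [Finset.sum_comm, Finset.sum_mul]
      apply Finset.sum_le_sum
      intro z hz
      rw [Finset.sum_comm, Finset.sum_mul]
      apply Finset.sum_le_sum
      intro x hx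
      obtain ⟨a, b, c⟩ := hIJ z hz x hx
      exact toptail_pair h hl hB a b c
    apply add_le_add
    · apply key
      intro z hz x hx
      rw [Finset.mem_Ico] at hz hx
      omega
    · apply key
      intro z hz x hx
      rw [Finset.mem_Ico] at hz hx
      omega
  have hfin := hsum.trans hE
  rw [mul_comm] at hfin
  exact le_of_mul_le_mul_right hfin hZ


end Pool.Agent.Helper98.EX
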