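import Pool.Agent.Helper98.EX.Stmts2
import Pool.Agent.Helper91.EX.TOPTAIL

/-!
# EX, module DT1: deterministic theorem 1
-/

namespace Pool.Agent.Helper98.EX

open Finset

variable {N : ℕ}

/-! ### the probability of not hitting is decreasing in time -/

theorem dt1_nohit_nn {r l : ℕ → ℝ} (h : Adm N r l) (S : Finset ℕ) (T : Set (Cfg N)) (m : ℕ)
    (η : Cfg N) : 0 ≤ nohit r l S T m η ∧ nohit r l S T m η ≤ 1 - ind T η := by
  induction m generalizing η with
  | zero =>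
    have h1 := ind_le_one T η
    unfold nohit
    exact ⟨by linarith, le_rfl⟩
  | succ m ih =>
    have h1 := ind_le_one T η
    have h2 : 0 ≤ stp r l S (nohit r l S T m) η := stp_nonneg h (fun ζ => (ih ζ).1) η
    have h3 : stp r l S (nohit r l S T m) η ≤ 1 := by
      have := stp_mono (S := S) h (f := nohit r l S T m) (g := fun _ => 1)
        (fun ζ => (ih ζ).2.trans (by linarith [ind_nonneg T ζ])) η
      rwa [stp_const] at this
    unfold nohit
    exact ⟨mul_nonneg (by linarith) h2, by nlinarith⟩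

theorem dt1_nohit_succ {r l : ℕ → ℝ} (h : Adm N r l) (S : Finset ℕ) (T : Set (Cfg N)) (m : ℕ)
    (η : Cfg N) : nohit r l S T (m + 1) η ≤ nohit r l S T m η := by
  induction m generalizing η with
  | zero => exact (dt1_nohit_nn h S T 1 η).2
  | succ m ih =>
    have h1 := ind_le_one T η
    have h2 := stp_mono (S := S) h ih η
    show (1 - ind T η) * stp r l S (nohit r l S T (m + 1)) η ≤
      (1 - ind T η) * stp r l S (nohit r l S T m) η
    exact mul_le_mul_of_nonneg_left h2 (by linarith)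

theorem dt1_nohit_anti {r l : ℕ → ℝ} (h : Adm N r l) (S : Finset ℕ) (T : Set (Cfg N))
    (η : Cfg N) : Antitone fun m => nohit r l S T m η :=
  antitone_nat_of_succ_le fun m => dt1_nohit_succ h S T m η

/-! ### heights of `zet` -/

theorem dt1_zet {k n : ℕ} (hk : k ≤ N) (h1 : n ≤ k) (h2 : n ≤ N - k) {ξ : Cfg N}
    (hξ : ht ξ 0 = k) (h : ∀ x, x ≤ N → min k (N - x) ≤ ht ξ x + n) :
    hle 0 (zet N 0 N (N - k) n) ξ := by
  have hocc : ∀ i, i < N → (occ (zet N 0 N (N - k) n) i = true ↔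
      (i < n ∨ (N - k ≤ i ∧ i + n < N))) := by
    intro i hi
    rw [occ_lt hi]
    unfold zet
    simp only [decide_eq_true_eq]
    omega
  have hocc' : ∀ i, i < N → (occ (zet N 0 N (N - k) n) i = false ↔
      ¬ (i < n ∨ (N - k ≤ i ∧ i + n < N))) := by
    intro i hi
    rw [← hocc i hi]
    simp
  have e1 : ∀ x, N - n ≤ x → x ≤ N → ht (zet N 0 N (N - k) n) x = 0 := by
    intro x x1 x2
    rw [toptail_empty x2 le_rfl fun i i1 i2 => (hocc' i i2).2 (by omega), ht_ge le_rfl]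
  have e2 : ∀ x, N - k ≤ x → x ≤ N - n → ht (zet N 0 N (N - k) n) x = N - n - x := by
    intro x x1 x2
    rw [toptail_run x2 (by omega) fun i i1 i2 => (hocc i (by omega)).2 (by omega),
      e1 _ le_rfl (by omega)]
    omega
  have e3 : ∀ x, n ≤ x → x ≤ N - k → ht (zet N 0 N (N - k) n) x = k - n := by
    intro x x1 x2
    rw [toptail_empty x2 (by omega) fun i i1 i2 => (hocc' i (by omega)).2 (by omega),
      e2 _ le_rfl (by omega)]
    omega
  have e4 : ∀ x, x ≤ n → ht (zet N 0 N (N - k) n) x = k - x := by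
    intro x x1
    rw [toptail_run x1 (by omega) fun i i1 i2 => (hocc i (by omega)).2 (by omega),
      e3 _ le_rfl h2]
    omega
  intro x
  rw [add_zero]
  have hb := hle_bot hk hξ x
  rw [ht_bot hk, add_zero] at hb
  rcases le_or_gt x N with hxN | hxN
  · have hx := h x hxN
    rcases le_total x n with c1 | c1
    · rw [e4 x c1]
      exact hb
    · rcases le_total x (N - k) with c2 | c2
      · rw [e3 x c1 c2]
        omega
      · rcases le_total x (N - n) with c3 | c3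
        · rw [e2 x c2 c3]
          omega
        · rw [e1 x c3 hxN]
          omega
  · rw [ht_ge (by omega)]
    omega

/-! ### large `N` -/

theorem dt1_large {γ c c' b : ℝ} (hγ : 0 < γ) (hc : 0 < c) (hc' : 0 < c') :
    ∃ N0 : ℕ, ∀ N : ℕ, N0 ≤ N → 3 ≤ N ∧ Real.log N ^ 2 ≤ N ∧ Real.log N ^ 2 ≤ c * (N : ℝ) ^ γ ∧
      (N : ℝ) ^ (-5 : ℝ) ≤ c' ∧ b ≤ N := by
  have t1 : ∀ s : ℝ, 0 < s → ∀ d : ℝ, 0 < d →
      ∀ᶠ n : ℕ in Filter.atTop, Real.log n ^ 2 ≤ d * (n : ℝ) ^ s := by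
    intro s hs d hd
    have h1 := (isLittleO_log_rpow_rpow_atTop (2 : ℝ) hs).def hd
    have h2 := (tendsto_natCast_atTop_atTop (R := ℝ)).eventually h1
    filter_upwards [h2, Filter.eventually_ge_atTop 1] with n hn hn1
    have hn1' : (1 : ℝ) ≤ n := by exact_mod_cast hn1
    have hl : 0 ≤ Real.log n := Real.log_nonneg hn1'
    rw [Real.norm_of_nonneg (Real.rpow_nonneg hl _),
      Real.norm_of_nonneg (Real.rpow_nonneg (by linarith) _)] at hn
    have e : Real.log (n : ℝ) ^ (2 : ℝ) = Real.log n ^ 2 := by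
      exact_mod_cast Real.rpow_natCast (Real.log n) 2
    rwa [e] at hn
  have t2 : ∀ᶠ n : ℕ in Filter.atTop, (n : ℝ) ^ (-5 : ℝ) ≤ c' := by
    have h1 := (tendsto_rpow_neg_atTop (by norm_num : (0 : ℝ) < 5)).comp
      (tendsto_natCast_atTop_atTop (R := ℝ))
    filter_upwards [h1.eventually (ge_mem_nhds hc')] with n hn
    exact hn
  have t3 : ∀ᶠ n : ℕ in Filter.atTop, b ≤ (n : ℝ) :=
    (tendsto_natCast_atTop_atTop (R := ℝ)).eventually (Filter.eventually_ge_atTop b)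
  obtain ⟨N0, hN0⟩ := Filter.eventually_atTop.1 ((Filter.eventually_ge_atTop 3).and
    ((t1 1 one_pos 1 one_pos).and ((t1 γ hγ c hc).and (t2.and t3))))
  refine ⟨N0, fun N hN => ?_⟩
  obtain ⟨h1, h2, h3, h4, h5⟩ := hN0 N hN
  refine ⟨h1, ?_, h3, h4, h5⟩
  simpa using h2

theorem st_DT1 (hF : ST_FIN) (hG : ST_GS) (hH : ST_HT) : ST_DT1 := by
  intro ε δ γ η0 Cs C1 c1 m0 hε hε1 hδ hγ hγ1 hη hη1 hCs hC1 hc1 hc11
  obtain ⟨N1, Cf, hCf, hF'⟩ := hF γ η0 (Cs + 1) c1 (ε / 16) m0 hγ hγ1 hη hη1 (by linarith) hc1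
    hc11 (by positivity)
  obtain ⟨N2, hG'⟩ := hG γ hγ hγ1
  obtain ⟨N3, hH'⟩ := hH ε m0 hε
  obtain ⟨N4, hN4⟩ := dt1_large (γ := γ) (c := δ / 2944) (c' := ε / 32) (b := 4 * Cf / δ) hγ
    (by positivity) (by positivity)
  refine ⟨max 1 (64 * (C1 + 1) / δ), max (max N1 N2) (max N3 N4), by positivity, ?_⟩
  intro N k r l w m1 as hN hE hpr ht1 ht2
  have hNa : N1 ≤ N := by omega
  have hNb : N2 ≤ N := by omega
  have hNc : N3 ≤ N := by omega
  obtain ⟨n3, l1, l2, p1, b1⟩ := hN4 N (by omega)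
  have hk := hE.kN
  have hNr : (3 : ℝ) ≤ N := by exact_mod_cast n3
  have hNpos : (0 : ℝ) < N := by linarith
  set t : ℝ := (m1 : ℝ) / (2 * N) with htd
  have htN : (N : ℝ) ≤ t := by
    have : (1 : ℝ) * N ≤ max 1 (64 * (C1 + 1) / δ) * N :=
      mul_le_mul_of_nonneg_right (le_max_left _ _) hNpos.le
    linarith
  have htK : 64 * (C1 + 1) / δ * N ≤ t := by
    have : 64 * (C1 + 1) / δ * N ≤ max 1 (64 * (C1 + 1) / δ) * N :=
      mul_le_mul_of_nonneg_right (le_max_right _ _) hNpos.le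
    linarith
  have ht1' : 1 ≤ t := by linarith
  have hm1 : (m1 : ℝ) = t * (2 * N) := by
    rw [htd]
    field_simp
  have hlog1 : 1 ≤ Real.log N := by
    rw [Real.le_log_iff_exp_le hNpos]
    have := Real.exp_one_lt_d9
    linarith
  have hlog2 : 1 ≤ Real.log N ^ 2 := by nlinarith
  set a : ℝ := Real.sqrt (t + 1) * Real.log N ^ 2 with ha
  have ha0 : 0 < a := by
    rw [ha]
    have : 0 < Real.sqrt (t + 1) := Real.sqrt_pos.2 (by linarith)
    positivity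
  obtain ⟨-, hH2⟩ := hH' N k r l m1 hNc hk hE.adm hpr (by
    rw [← htd]
    linarith)
  obtain ⟨g1, g2, g3, g4⟩ := hG' N k r l w m0 η0 as Cs C1 c1 (ε / 32) hNb hη hE
  set n : ℕ := min ⌈(m0 : ℝ) + 2 * a⌉₊ (min k (N - k)) with hn
  have hA := hE.hA
  have hB := hE.hB
  have hw1 := hE.w1
  have hceil : 0 < ⌈(m0 : ℝ) + 2 * a⌉₊ := Nat.ceil_pos.2 (by positivity)
  have hn1 : 1 ≤ n := by
    rw [hn]
    omega
  have hnk : n ≤ k := by
    rw [hn]
    omega
  have hnk' : n ≤ N - k := by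
    rw [hn]
    omega
  have hzet : pr r l (fun _ => full N) m1 {ξ | ¬ hle 0 (zet N 0 N (N - k) n) ξ} (bot N k) ≤
      (N : ℝ) ^ (-6 : ℝ) := by
    refine le_trans (pr_mono_sector hE.adm (k := k) _ m1 ?_ (ht_bot_zero hk)) hH2
    intro ξ hξ hno
    by_contra hc
    apply hno
    apply dt1_zet hk hnk hnk' hξ
    intro x hx
    rcases le_total ⌈(m0 : ℝ) + 2 * a⌉₊ (min k (N - k)) with c | c
    · have e : n = ⌈(m0 : ℝ) + 2 * a⌉₊ := by
        rw [hn]
        omega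
      by_contra hlt
      push Not at hlt
      apply hc
      refine ⟨x, hx, ?_⟩
      have h1 : ((ht ξ x + n : ℕ) : ℝ) < (min k (N - x) : ℕ) := by exact_mod_cast hlt
      have h2 : (m0 : ℝ) + 2 * a ≤ n := by
        rw [e]
        exact Nat.le_ceil _
      have h3 : ((ht ξ x : ℕ) : ℝ) + (n : ℝ) < ((min k (N - x) : ℕ) : ℝ) := by
        rw [← Nat.cast_add]
        exact h1
      have h4 : ((ht ξ x : ℕ) : ℝ) < ((min k (N - x) : ℕ) : ℝ) - m0 - 2 * a := by
        linarith only [h3, h2]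
      rw [ha] at h4
      linarith only [h4]
    · have e : n = min k (N - k) := by
        rw [hn]
        omega
      have hb := hle_bot hk hξ x
      rw [ht_bot hk, add_zero] at hb
      omega
  have has := hE.as1
  have hNg : 0 < (N : ℝ) ^ γ := Real.rpow_pos_of_pos hNpos _
  have key := hF' N k r l (modl N l) 0 N w n m1 (as + 1) ((N : ℝ) ^ γ * (as + 1))
    ((N : ℝ) ^ (-6 : ℝ)) hNa hk hE.adm g1 (fun x _ _ => le_max_left _ _) hE.m0w hn1
    (by omega) (by omega) (by linarith) le_rfl (by linarith) hE.loc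
    (Real.rpow_nonneg hNpos.le _) hzet
  -- the extra time
  set S1 : ℝ := ∑ y ∈ Finset.Ico 0 (N - k), atl r (modl N l) η0 w y with hS1
  set S2 : ℝ := ∑ y ∈ Finset.Ico (N - N) k, atl (mirr N r) (mirr N (modl N l)) η0 w y with hS2
  have hmax : max S1 S2 ≤ (C1 + 1) * N := max_le g3 g4
  have hst : 0 < Real.sqrt t := Real.sqrt_pos.2 (by linarith)
  have hst1 : 1 ≤ Real.sqrt t := by
    rw [Real.one_le_sqrt]
    exact ht1'
  have hsq : Real.sqrt t * Real.sqrt t = t := Real.mul_self_sqrt (by linarith)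
  have hst2 : Real.sqrt (t + 1) ≤ 2 * Real.sqrt t := by
    rw [Real.sqrt_le_left (by positivity)]
    nlinarith
  have hnb : (n : ℝ) ≤ m0 + 2 * a + 1 := by
    have h1 : n ≤ ⌈(m0 : ℝ) + 2 * a⌉₊ := by
      rw [hn]
      omega
    have h2 := Nat.ceil_lt_add_one (a := (m0 : ℝ) + 2 * a) (by positivity)
    have h3 : (n : ℝ) ≤ (⌈(m0 : ℝ) + 2 * a⌉₊ : ℝ) := by exact_mod_cast h1
    linarith
  have hm0 : (m0 : ℝ) ≤ Real.log N ^ 2 := by
    have h1 : (m0 : ℝ) ≤ w := by exact_mod_cast hE.m0w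
    have h2 := hE.wlog
    linarith
  have hn2 : 3 * (n : ℝ) + 5 ≤ 23 * (Real.sqrt t * Real.log N ^ 2) := by
    have h1 : a ≤ 2 * (Real.sqrt t * Real.log N ^ 2) := by
      rw [ha]
      nlinarith
    have h2 : Real.log N ^ 2 ≤ Real.sqrt t * Real.log N ^ 2 := by nlinarith
    linarith
  have hell : (N : ℝ) ^ γ * ((N : ℝ) ^ γ * (as + 1)) ≤ 2 * Real.sqrt t := by
    have h1 : (N : ℝ) ^ (2 * γ) = (N : ℝ) ^ γ * (N : ℝ) ^ γ := by
      rw [← Real.rpow_add hNpos]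
      congr 1
      ring
    rw [h1] at ht2
    have h2 : 0 < (N : ℝ) ^ γ * (N : ℝ) ^ γ := by positivity
    nlinarith
  have hprod : (3 * (n : ℝ) + 5) * ((N : ℝ) ^ γ * (as + 1)) ≤ δ / 64 * t := by
    have h1 : 0 < (N : ℝ) ^ γ * (as + 1) := by positivity
    have h2 : (3 * (n : ℝ) + 5) * ((N : ℝ) ^ γ * (as + 1)) ≤
        23 * (Real.sqrt t * Real.log N ^ 2) * ((N : ℝ) ^ γ * (as + 1)) :=
      mul_le_mul_of_nonneg_right hn2 h1.le
    have h3 : 23 * (Real.sqrt t * Real.log N ^ 2) * ((N : ℝ) ^ γ * (as + 1)) ≤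
        23 * (Real.sqrt t * (δ / 2944 * (N : ℝ) ^ γ)) * ((N : ℝ) ^ γ * (as + 1)) := by
      apply mul_le_mul_of_nonneg_right _ h1.le
      apply mul_le_mul_of_nonneg_left _ (by norm_num)
      exact mul_le_mul_of_nonneg_left l2 hst.le
    have h4 : 23 * (Real.sqrt t * (δ / 2944 * (N : ℝ) ^ γ)) * ((N : ℝ) ^ γ * (as + 1)) =
        δ / 128 * (Real.sqrt t * ((N : ℝ) ^ γ * ((N : ℝ) ^ γ * (as + 1)))) := by ring
    have h5 : Real.sqrt t * ((N : ℝ) ^ γ * ((N : ℝ) ^ γ * (as + 1))) ≤ 2 * t := by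
      have := mul_le_mul_of_nonneg_left hell hst.le
      nlinarith
    have h6 : δ / 128 * (Real.sqrt t * ((N : ℝ) ^ γ * ((N : ℝ) ^ γ * (as + 1)))) ≤
        δ / 128 * (2 * t) := mul_le_mul_of_nonneg_left h5 (by positivity)
    linarith
  have hCf2 : Cf ≤ δ / 4 * t := by
    have h1 : 4 * Cf / δ ≤ t := by linarith
    rw [div_le_iff₀ hδ] at h1
    linarith
  have hC2 : 16 * ((C1 + 1) * N) ≤ δ / 4 * t := by
    have h1 : 64 * (C1 + 1) / δ * N = 64 * (C1 + 1) * N / δ := by ring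
    rw [h1, div_le_iff₀ hδ] at htK
    linarith
  have hX : 2 * (N : ℝ) * (16 * (max S1 S2 + (3 * n + 5) * ((N : ℝ) ^ γ * (as + 1))) + Cf) ≤
      δ * m1 := by
    have h1 : 16 * (max S1 S2 + (3 * n + 5) * ((N : ℝ) ^ γ * (as + 1))) + Cf ≤ δ * t := by
      have : 0 ≤ δ * t := by positivity
      linarith
    rw [hm1]
    have h2 := mul_le_mul_of_nonneg_left h1 (by positivity : (0 : ℝ) ≤ 2 * N)
    linarith
  have hceil2 : m1 + ⌈2 * (N : ℝ) * (16 * (max S1 S2 +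
      (3 * n + 5) * ((N : ℝ) ^ γ * (as + 1))) + Cf)⌉₊ ≤ ⌈(1 + δ) * (m1 : ℝ)⌉₊ := by
    have h1 : ⌈2 * (N : ℝ) * (16 * (max S1 S2 +
      (3 * n + 5) * ((N : ℝ) ^ γ * (as + 1))) + Cf)⌉₊ ≤ ⌈δ * (m1 : ℝ)⌉₊ := Nat.ceil_mono hX
    have h2 : ⌈(1 + δ) * (m1 : ℝ)⌉₊ = ⌈δ * (m1 : ℝ)⌉₊ + m1 := by
      rw [← Nat.ceil_add_natCast (by positivity)]
      congr 1
      ring
    omega
  have hanti := dt1_nohit_anti hE.adm (full N) {top N k} (bot N k) hceil2
  refine hanti.trans (key.trans ?_)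
  have h6 : (N : ℝ) ^ (-6 : ℝ) ≤ (N : ℝ) ^ (-5 : ℝ) :=
    Real.rpow_le_rpow_of_exponent_le (by linarith) (by norm_num)
  linarith

end Pool.Agent.Helper98.EX
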