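import Pool.Agent.Helper98.EX.Stmts3

/-!
# EX, module EVNEAR: conditions near the interface
-/

namespace Pool.Agent.Helper98.EX

open Finset MeasureTheory ProbabilityTheory Filter
open scoped Topology

section

variable {Ω : Type} [MeasurableSpace Ω] {P : Measure Ω} {X : ℕ → Ω → ℝ}

theorem evnear_meas (h : IIDE P X) (z x : ℕ) :
    Measurable fun ω => RR (rE (EE X ω)) (lE (EE X ω)) z x := by
  unfold RR rE lE EE
  exact Finset.measurable_prod _ fun b _ => (measurable_const.sub (h.meas b)).div (h.meas (b - 1))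

theorem evnear_nn (h : IIDE P X) (z x : ℕ) (ω : Ω) :
    0 ≤ RR (rE (EE X ω)) (lE (EE X ω)) z x := by
  unfold RR rE lE EE
  exact Finset.prod_nonneg fun b _ =>
    div_nonneg (by linarith [(h.rng b ω).2]) (h.rng (b - 1) ω).1.le

/-- Markov's inequality -/
theorem evnear_markov {Y : Ω → ℝ} (hY : Measurable Y) {a c : ℝ} (ha : 0 < a)
    (hc : ∫⁻ ω, ENNReal.ofReal (Y ω) ∂P ≤ ENNReal.ofReal c) :
    P {ω | a < Y ω} ≤ ENNReal.ofReal (c / a) := by
  have h1 : P {ω | a < Y ω} ≤ P {ω | ENNReal.ofReal a ≤ ENNReal.ofReal (Y ω)} :=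
    measure_mono fun ω hω => ENNReal.ofReal_le_ofReal (le_of_lt hω)
  have h2 := meas_ge_le_lintegral_div (μ := P) (f := fun ω => ENNReal.ofReal (Y ω))
    hY.ennreal_ofReal.aemeasurable (ε := ENNReal.ofReal a) (by simpa using ha)
    ENNReal.ofReal_ne_top
  rw [ENNReal.ofReal_div_of_pos ha]
  exact h1.trans (h2.trans (ENNReal.div_le_div_right hc _))

theorem evnear_sum {ι : Type} (S : Finset ι) (Y : ι → Ω → ℝ) (c : ι → ℝ)
    (hm : ∀ i, Measurable (Y i)) (hn : ∀ i ω, 0 ≤ Y i ω) (hc0 : ∀ i, 0 ≤ c i)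
    (hc : ∀ i ∈ S, ∫⁻ ω, ENNReal.ofReal (Y i ω) ∂P ≤ ENNReal.ofReal (c i)) :
    ∫⁻ ω, ENNReal.ofReal (∑ i ∈ S, Y i ω) ∂P ≤ ENNReal.ofReal (∑ i ∈ S, c i) := by
  have e : ∀ ω, ENNReal.ofReal (∑ i ∈ S, Y i ω) = ∑ i ∈ S, ENNReal.ofReal (Y i ω) := fun ω =>
    ENNReal.ofReal_sum_of_nonneg fun i _ => hn i ω
  simp only [e]
  rw [lintegral_finsetSum S fun i _ => (hm i).ennreal_ofReal,
    ENNReal.ofReal_sum_of_nonneg fun i _ => hc0 i]
  exact Finset.sum_le_sum hc

theorem evnear_union {ι : Type} (S : Finset ι) (Q : ι → Ω → Prop) {b : ℝ}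
    (hb : ∀ i ∈ S, P {ω | Q i ω} ≤ ENNReal.ofReal b) :
    P {ω | ∃ i ∈ S, Q i ω} ≤ ENNReal.ofReal (S.card * b) := by
  have h1 : {ω | ∃ i ∈ S, Q i ω} = ⋃ i ∈ S, {ω | Q i ω} := by
    ext ω
    simp
  rw [h1]
  refine (measure_biUnion_finset_le S _).trans ((Finset.sum_le_sum hb).trans ?_)
  rw [Finset.sum_const, nsmul_eq_mul, ENNReal.ofReal_mul (Nat.cast_nonneg _),
    ENNReal.ofReal_natCast]

/-- small values of the environment are unlikely -/
theorem evnear_inv (h : IIDE P X) {θ : ℝ} (h1 : θ < 1) (hM : Mom P X 1 ≤ ENNReal.ofReal θ) (b : ℕ)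
    {c : ℝ} (hc : 0 < c) : P {ω | X b ω < c} ≤ ENNReal.ofReal (2 * c) := by
  have := h.prob
  have e1 : P {ω | X b ω < c} = P {ω | X 0 ω < c} := (h.ident b).measure_mem_eq measurableSet_Iio
  have e2 : ∫⁻ ω, ENNReal.ofReal (1 / X 0 ω) ∂P ≤ ENNReal.ofReal 2 := by
    have e3 : ∀ ω, ENNReal.ofReal (1 / X 0 ω) =
        ENNReal.ofReal (((1 - X 0 ω) / X 0 ω) ^ (1 : ℝ)) + 1 := by
      intro ω
      have hx := h.rng 0 ω
      rw [Real.rpow_one, ← ENNReal.ofReal_one, ← ENNReal.ofReal_add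
        (div_nonneg (by linarith [hx.2]) hx.1.le) zero_le_one]
      congr 1
      have := hx.1.ne'
      field_simp
      ring
    simp only [e3]
    rw [lintegral_add_right _ measurable_const, lintegral_const, measure_univ, one_mul]
    calc Mom P X 1 + 1 ≤ ENNReal.ofReal 1 + ENNReal.ofReal 1 := by
          gcongr
          · exact hM.trans (ENNReal.ofReal_le_ofReal h1.le)
          · simp
      _ = ENNReal.ofReal 2 := by
          rw [← ENNReal.ofReal_add zero_le_one zero_le_one]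
          norm_num
  rw [e1]
  have e4 := evnear_markov (P := P) (Y := fun ω => 1 / X 0 ω) (measurable_const.div (h.meas 0))
    (one_div_pos.2 hc) e2
  rw [show (2 : ℝ) / (1 / c) = 2 * c by field_simp] at e4
  refine le_trans (measure_mono fun ω hω => ?_) e4
  exact one_div_lt_one_div_of_lt (h.rng 0 ω).1 hω

/-- weighted union over five events -/
theorem evnear_five {A B C D E : Set Ω} {p : ℝ} (hp : 0 < p) (hA : P A ≤ ENNReal.ofReal (p / 5))
    (hB : P B ≤ ENNReal.ofReal (p / 5)) (hC : P C ≤ ENNReal.ofReal (p / 5))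
    (hD : P D ≤ ENNReal.ofReal (p / 5)) (hE : P E ≤ ENNReal.ofReal (p / 5)) :
    P (A ∪ (B ∪ (C ∪ (D ∪ E)))) ≤ ENNReal.ofReal p := by
  have h5 : 0 ≤ p / 5 := by positivity
  calc P (A ∪ (B ∪ (C ∪ (D ∪ E)))) ≤ P A + (P B + (P C + (P D + P E))) := by
        refine (measure_union_le _ _).trans (add_le_add le_rfl ?_)
        refine (measure_union_le _ _).trans (add_le_add le_rfl ?_)
        refine (measure_union_le _ _).trans (add_le_add le_rfl ?_)
        exact measure_union_le _ _
    _ ≤ ENNReal.ofReal (p / 5) + (ENNReal.ofReal (p / 5) + (ENNReal.ofReal (p / 5) +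
        (ENNReal.ofReal (p / 5) + ENNReal.ofReal (p / 5)))) :=
        add_le_add hA (add_le_add hB (add_le_add hC (add_le_add hD hE)))
    _ = ENNReal.ofReal p := by
        rw [← ENNReal.ofReal_add h5 h5, ← ENNReal.ofReal_add h5 (by positivity),
          ← ENNReal.ofReal_add h5 (by positivity), ← ENNReal.ofReal_add h5 (by positivity)]
        congr 1
        ring

end

/-! ### geometric sums -/

theorem evnear_geo {θ : ℝ} (h0 : 0 < θ) (h1 : θ < 1) {ι : Type} (S : Finset ι) (φ : ι → ℕ)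
    (hφ : Set.InjOn φ S) (m : ℕ) (hm : ∀ i ∈ S, m ≤ φ i) :
    ∑ i ∈ S, θ ^ φ i ≤ θ ^ m / (1 - θ) := by
  classical
  have hi : Set.InjOn (fun i => φ i - m) S := by
    intro i hi j hj hij
    have a := hm i hi
    have b := hm j hj
    have hij' : φ i - m = φ j - m := hij
    exact hφ hi hj (by omega)
  have e1 : ∀ i ∈ S, θ ^ φ i = θ ^ m * θ ^ (φ i - m) := by
    intro i hi
    rw [← pow_add]
    congr 1
    have := hm i hi
    omega
  rw [Finset.sum_congr rfl e1, ← Finset.mul_sum, div_eq_mul_inv]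
  refine mul_le_mul_of_nonneg_left ?_ (by positivity)
  rw [← Finset.sum_image (f := fun j => θ ^ j) hi, ← tsum_geometric_of_lt_one h0.le h1]
  exact (summable_geometric_of_lt_one h0.le h1).sum_le_tsum _ fun i _ => by positivity

/-- large `N` -/
theorem evnear_large {g a b d : ℝ} (hg : 0 < g) (ha : 0 < a) (hb : 0 < b) (hd : 0 < d) :
    ∃ N0 : ℕ, ∀ N : ℕ, N0 ≤ N → 1 ≤ N ∧ a * (Real.log N ^ 2) ^ 2 ≤ d * (N : ℝ) ^ g ∧
      b * Real.log N ^ 2 ≤ d * (N : ℝ) ^ g := by
  have t1 : ∀ c : ℝ, 0 < c → ∀ j : ℕ,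
      ∀ᶠ n : ℕ in Filter.atTop, c * Real.log n ^ j ≤ d * (n : ℝ) ^ g := by
    intro c hc j
    have h1 := (isLittleO_log_rpow_rpow_atTop (j : ℝ) hg).def (div_pos hd hc)
    have h2 := (tendsto_natCast_atTop_atTop (R := ℝ)).eventually h1
    filter_upwards [h2, Filter.eventually_ge_atTop 1] with n hn hn1
    have hn1' : (1 : ℝ) ≤ n := by exact_mod_cast hn1
    have hl : 0 ≤ Real.log n := Real.log_nonneg hn1'
    rw [Real.norm_of_nonneg (Real.rpow_nonneg hl _),
      Real.norm_of_nonneg (Real.rpow_nonneg (by linarith) _), Real.rpow_natCast] at hn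
    have h3 := mul_le_mul_of_nonneg_left hn hc.le
    have h4 : c * (d / c * (n : ℝ) ^ g) = d * (n : ℝ) ^ g := by
      field_simp
    rwa [h4] at h3
  obtain ⟨N0, hN0⟩ := Filter.eventually_atTop.1 ((Filter.eventually_ge_atTop 1).and
    ((t1 a ha 4).and (t1 b hb 2)))
  refine ⟨N0, fun N hN => ?_⟩
  obtain ⟨h1, h2, h3⟩ := hN0 N hN
  refine ⟨h1, ?_, h3⟩
  rw [← pow_mul]
  exact h2

theorem st_EVNEAR (hMOM : ST_MOM) : ST_EVNEAR := by
  intro Ω _ P X θ hX h0 h1 hM ηp e0 hη he
  obtain ⟨C, hC, hC'⟩ := hMOM Ω P X 1 θ hX le_rfl h0 h1 hM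
  have hI : ∀ z x : ℕ, z ≤ x → ∫⁻ ω, ENNReal.ofReal (RR (rE (EE X ω)) (lE (EE X ω)) z x) ∂P ≤
      ENNReal.ofReal (C * θ ^ (x - z)) := by
    intro z x hzx
    have := (hC' z x hzx).1
    simpa only [Real.rpow_one] using this
  have h1' : 0 < 1 - θ := by linarith
  -- the constants
  obtain ⟨m0, hm0⟩ : ∃ m0 : ℕ, θ ^ m0 ≤ e0 * ηp * (1 - θ) ^ 2 / (10 * C) := by
    obtain ⟨n, hn⟩ := exists_pow_lt_of_lt_one
      (show 0 < e0 * ηp * (1 - θ) ^ 2 / (10 * C) by positivity) h1
    exact ⟨n, hn.le⟩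
  set Cs : ℝ := 10 * C / ((1 - θ) * ηp) with hCs
  set c1 : ℝ := min 1 (ηp / (10 * (2 * m0 + 1))) with hc1
  have hc1p : 0 < c1 := by
    rw [hc1]
    exact lt_min one_pos (by positivity)
  refine ⟨Cs, c1, m0, by positivity, hc1p, min_le_left _ _, ?_⟩
  intro γ hγ
  obtain ⟨N0, hN0⟩ := evnear_large (g := γ / 20) (a := 36 * C) (b := 12) (d := ηp / 5)
    (by positivity) (by positivity) (by norm_num) (by positivity)
  refine ⟨N0, ?_⟩
  intro N k w hN hk hw1 hw2 hw
  obtain ⟨n1, l1, l2⟩ := hN0 N hN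
  have hNpos : (0 : ℝ) < N := by exact_mod_cast n1
  set a : ℝ := (N : ℝ) ^ (γ / 20) with ha
  have ha0 : 0 < a := Real.rpow_pos_of_pos hNpos _
  have hw0 : (0 : ℝ) ≤ w := Nat.cast_nonneg _
  -- event A
  have hA : P {ω | ∃ p ∈ Finset.Ico (N - k - 3 * w) (N - k + 3 * w) ×ˢ
      Finset.Ico (N - k - 3 * w) (N - k + 3 * w), p.1 ≤ p.2 ∧
      a < RR (rE (EE X ω)) (lE (EE X ω)) p.1 p.2} ≤ ENNReal.ofReal (ηp / 5) := by
    refine (evnear_union _ (fun (p : ℕ × ℕ) ω => p.1 ≤ p.2 ∧ a < RR (rE (EE X ω)) (lE (EE X ω)) p.1 p.2)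
      (b := C / a) ?_).trans ?_
    · intro p _
      by_cases hp : p.1 ≤ p.2
      · refine (measure_mono fun ω hω => hω.2).trans
          ((evnear_markov (evnear_meas hX p.1 p.2) ha0 (hI p.1 p.2 hp)).trans ?_)
        apply ENNReal.ofReal_le_ofReal
        gcongr
        have : θ ^ (p.2 - p.1) ≤ 1 := pow_le_one₀ h0.le h1.le
        nlinarith
      · have : {ω | p.1 ≤ p.2 ∧ a < RR (rE (EE X ω)) (lE (EE X ω)) p.1 p.2} = ∅ := by
          ext ω
          simp [hp]
        rw [this]
        simp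
    · apply ENNReal.ofReal_le_ofReal
      rw [Finset.card_product, Nat.card_Ico, show N - k + 3 * w - (N - k - 3 * w) = 6 * w by omega]
      push_cast
      rw [mul_div_assoc', div_le_iff₀ ha0]
      have h5 : (w : ℝ) ^ 2 ≤ (Real.log N ^ 2) ^ 2 := by gcongr
      calc 6 * (w : ℝ) * (6 * w) * C = 36 * C * (w : ℝ) ^ 2 := by ring
        _ ≤ 36 * C * (Real.log N ^ 2) ^ 2 := by gcongr
        _ ≤ _ := l1
  -- event B
  have hB : P {ω | ∃ b ∈ Finset.Ico (N - k - 3 * w) (N - k + 3 * w), X (b - 1) ω < a⁻¹} ≤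
      ENNReal.ofReal (ηp / 5) := by
    refine (evnear_union _ (fun b ω => X (b - 1) ω < a⁻¹) (b := 2 * a⁻¹) fun b _ =>
      evnear_inv hX h1 hM (b - 1) (inv_pos.2 ha0)).trans ?_
    apply ENNReal.ofReal_le_ofReal
    rw [Nat.card_Ico, show N - k + 3 * w - (N - k - 3 * w) = 6 * w by omega]
    push_cast
    rw [← mul_assoc, ← div_eq_mul_inv, div_le_iff₀ ha0]
    linarith
  -- event C
  have hCC : P {ω | Cs < ∑ z ∈ Finset.Ico (N - k - 3 * w) (N - k),
        RR (rE (EE X ω)) (lE (EE X ω)) z (N - k) +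
      ∑ x ∈ Finset.Ico (N - k) (N - k + 3 * w), RR (rE (EE X ω)) (lE (EE X ω)) (N - k) x} ≤
      ENNReal.ofReal (ηp / 5) := by
    have g1 := evnear_sum (P := P) (Finset.Ico (N - k - 3 * w) (N - k))
      (fun z ω => RR (rE (EE X ω)) (lE (EE X ω)) z (N - k)) (fun z => C * θ ^ (N - k - z))
      (fun z => evnear_meas hX z _) (fun z ω => evnear_nn hX z _ ω) (fun z => by positivity)
      (fun z hz => hI z _ (Finset.mem_Ico.1 hz).2.le)
    have g2 := evnear_sum (P := P) (Finset.Ico (N - k) (N - k + 3 * w))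
      (fun x ω => RR (rE (EE X ω)) (lE (EE X ω)) (N - k) x) (fun x => C * θ ^ (x - (N - k)))
      (fun x => evnear_meas hX _ x) (fun x ω => evnear_nn hX _ x ω) (fun x => by positivity)
      (fun x hx => hI _ x (Finset.mem_Ico.1 hx).1)
    have g3 : ∑ z ∈ Finset.Ico (N - k - 3 * w) (N - k), C * θ ^ (N - k - z) ≤ C * (1 / (1 - θ)) := by
      rw [← Finset.mul_sum]
      refine mul_le_mul_of_nonneg_left ?_ hC.le
      have := evnear_geo h0 h1 (Finset.Ico (N - k - 3 * w) (N - k)) (fun z => N - k - z)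
        (by
          intro i hi j hj hij
          simp only [Finset.coe_Ico, Set.mem_Ico] at hi hj
          have hij' : N - k - i = N - k - j := hij
          omega) 0 (fun i _ => Nat.zero_le _)
      simpa using this
    have g4 : ∑ x ∈ Finset.Ico (N - k) (N - k + 3 * w), C * θ ^ (x - (N - k)) ≤
        C * (1 / (1 - θ)) := by
      rw [← Finset.mul_sum]
      refine mul_le_mul_of_nonneg_left ?_ hC.le
      have := evnear_geo h0 h1 (Finset.Ico (N - k) (N - k + 3 * w)) (fun x => x - (N - k))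
        (by
          intro i hi j hj hij
          simp only [Finset.coe_Ico, Set.mem_Ico] at hi hj
          have hij' : i - (N - k) = j - (N - k) := hij
          omega) 0 (fun i _ => Nat.zero_le _)
      simpa using this
    have g5 : ∫⁻ ω, ENNReal.ofReal (∑ z ∈ Finset.Ico (N - k - 3 * w) (N - k),
        RR (rE (EE X ω)) (lE (EE X ω)) z (N - k) +
        ∑ x ∈ Finset.Ico (N - k) (N - k + 3 * w), RR (rE (EE X ω)) (lE (EE X ω)) (N - k) x) ∂P ≤
        ENNReal.ofReal (2 * C / (1 - θ)) := by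
      have e : ∀ ω, ENNReal.ofReal (∑ z ∈ Finset.Ico (N - k - 3 * w) (N - k),
          RR (rE (EE X ω)) (lE (EE X ω)) z (N - k) +
          ∑ x ∈ Finset.Ico (N - k) (N - k + 3 * w), RR (rE (EE X ω)) (lE (EE X ω)) (N - k) x) =
          ENNReal.ofReal (∑ z ∈ Finset.Ico (N - k - 3 * w) (N - k),
          RR (rE (EE X ω)) (lE (EE X ω)) z (N - k)) + ENNReal.ofReal
          (∑ x ∈ Finset.Ico (N - k) (N - k + 3 * w),
            RR (rE (EE X ω)) (lE (EE X ω)) (N - k) x) := fun ω =>
        ENNReal.ofReal_add (Finset.sum_nonneg fun z _ => evnear_nn hX z _ ω)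
          (Finset.sum_nonneg fun x _ => evnear_nn hX _ x ω)
      simp only [e]
      rw [lintegral_add_left
        (Finset.measurable_sum _ fun z _ => evnear_meas hX z _).ennreal_ofReal]
      refine (add_le_add g1 g2).trans ?_
      rw [← ENNReal.ofReal_add (Finset.sum_nonneg fun z _ => by positivity)
        (Finset.sum_nonneg fun z _ => by positivity)]
      apply ENNReal.ofReal_le_ofReal
      refine (add_le_add g3 g4).trans (le_of_eq ?_)
      ring
    refine (evnear_markov ?_ (show 0 < Cs by positivity) g5).trans ?_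
    · exact (Finset.measurable_sum _ fun z _ => evnear_meas hX z _).add
        (Finset.measurable_sum _ fun x _ => evnear_meas hX _ x)
    · apply ENNReal.ofReal_le_ofReal
      rw [hCs]
      have h1'' := h1'.ne'
      have hCne := hC.ne'
      have hηne := hη.ne'
      apply le_of_eq
      field_simp
      norm_num
  -- event D
  have hD : P {ω | e0 < tails N k (rE (EE X ω)) (lE (EE X ω)) m0} ≤ ENNReal.ofReal (ηp / 5) := by
    have q1 : ∀ x, x ∈ Finset.Ico (N - k) N → N - k ≤ x := fun x hx => (Finset.mem_Ico.1 hx).1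
    have g1 := evnear_sum (P := P) (Finset.Ico 0 (N - k - m0) ×ˢ Finset.Ico (N - k) N)
      (fun p ω => RR (rE (EE X ω)) (lE (EE X ω)) p.1 p.2) (fun p => C * θ ^ (p.2 - p.1))
      (fun p => evnear_meas hX p.1 p.2) (fun p ω => evnear_nn hX p.1 p.2 ω)
      (fun p => by positivity) (fun p hp => hI p.1 p.2 (by
        rw [Finset.mem_product, Finset.mem_Ico, Finset.mem_Ico] at hp
        omega))
    have g2 := evnear_sum (P := P) (Finset.Ico 0 (N - k) ×ˢ Finset.Ico (N - k + m0) N)
      (fun p ω => RR (rE (EE X ω)) (lE (EE X ω)) p.1 p.2) (fun p => C * θ ^ (p.2 - p.1))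
      (fun p => evnear_meas hX p.1 p.2) (fun p ω => evnear_nn hX p.1 p.2 ω)
      (fun p => by positivity) (fun p hp => hI p.1 p.2 (by
        rw [Finset.mem_product, Finset.mem_Ico, Finset.mem_Ico] at hp
        omega))
    have g3 : ∑ p ∈ Finset.Ico 0 (N - k - m0) ×ˢ Finset.Ico (N - k) N, C * θ ^ (p.2 - p.1) ≤
        C * (θ ^ m0 / (1 - θ) * (1 / (1 - θ))) := by
      rw [← Finset.mul_sum]
      refine mul_le_mul_of_nonneg_left ?_ hC.le
      have e : ∀ p ∈ Finset.Ico 0 (N - k - m0) ×ˢ Finset.Ico (N - k) N,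
          θ ^ (p.2 - p.1) = θ ^ (N - k - p.1) * θ ^ (p.2 - (N - k)) := by
        intro p hp
        rw [Finset.mem_product, Finset.mem_Ico, Finset.mem_Ico] at hp
        rw [← pow_add]
        congr 1
        omega
      rw [Finset.sum_congr rfl e, Finset.sum_product]
      simp only [← Finset.mul_sum]
      rw [← Finset.sum_mul]
      have a1 := evnear_geo h0 h1 (Finset.Ico 0 (N - k - m0)) (fun z => N - k - z)
        (by
          intro i hi j hj hij
          simp only [Finset.coe_Ico, Set.mem_Ico] at hi hj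
          have hij' : N - k - i = N - k - j := hij
          omega) m0 (fun i hi => by
            rw [Finset.mem_Ico] at hi
            omega)
      have a2 := evnear_geo h0 h1 (Finset.Ico (N - k) N) (fun x => x - (N - k))
        (by
          intro i hi j hj hij
          simp only [Finset.coe_Ico, Set.mem_Ico] at hi hj
          have hij' : i - (N - k) = j - (N - k) := hij
          omega) 0 (fun i _ => Nat.zero_le _)
      rw [pow_zero] at a2
      exact mul_le_mul a1 a2 (Finset.sum_nonneg fun i _ => by positivity) (by positivity)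
    have g4 : ∑ p ∈ Finset.Ico 0 (N - k) ×ˢ Finset.Ico (N - k + m0) N, C * θ ^ (p.2 - p.1) ≤
        C * (1 / (1 - θ) * (θ ^ m0 / (1 - θ))) := by
      rw [← Finset.mul_sum]
      refine mul_le_mul_of_nonneg_left ?_ hC.le
      have e : ∀ p ∈ Finset.Ico 0 (N - k) ×ˢ Finset.Ico (N - k + m0) N,
          θ ^ (p.2 - p.1) = θ ^ (N - k - p.1) * θ ^ (p.2 - (N - k)) := by
        intro p hp
        rw [Finset.mem_product, Finset.mem_Ico, Finset.mem_Ico] at hp
        rw [← pow_add]
        congr 1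
        omega
      rw [Finset.sum_congr rfl e, Finset.sum_product]
      simp only [← Finset.mul_sum]
      rw [← Finset.sum_mul]
      have a1 := evnear_geo h0 h1 (Finset.Ico 0 (N - k)) (fun z => N - k - z)
        (by
          intro i hi j hj hij
          simp only [Finset.coe_Ico, Set.mem_Ico] at hi hj
          have hij' : N - k - i = N - k - j := hij
          omega) 0 (fun i _ => Nat.zero_le _)
      have a2 := evnear_geo h0 h1 (Finset.Ico (N - k + m0) N) (fun x => x - (N - k))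
        (by
          intro i hi j hj hij
          simp only [Finset.coe_Ico, Set.mem_Ico] at hi hj
          have hij' : i - (N - k) = j - (N - k) := hij
          omega) m0 (fun i hi => by
            rw [Finset.mem_Ico] at hi
            omega)
      rw [pow_zero] at a1
      exact mul_le_mul a1 a2 (Finset.sum_nonneg fun i _ => by positivity) (by positivity)
    have g5 : ∫⁻ ω, ENNReal.ofReal (tails N k (rE (EE X ω)) (lE (EE X ω)) m0) ∂P ≤
        ENNReal.ofReal (2 * C * θ ^ m0 / (1 - θ) ^ 2) := by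
      have e : ∀ ω, ENNReal.ofReal (tails N k (rE (EE X ω)) (lE (EE X ω)) m0) =
          ENNReal.ofReal (∑ p ∈ Finset.Ico 0 (N - k - m0) ×ˢ Finset.Ico (N - k) N,
            RR (rE (EE X ω)) (lE (EE X ω)) p.1 p.2) + ENNReal.ofReal
          (∑ p ∈ Finset.Ico 0 (N - k) ×ˢ Finset.Ico (N - k + m0) N,
            RR (rE (EE X ω)) (lE (EE X ω)) p.1 p.2) := by
        intro ω
        rw [← ENNReal.ofReal_add (Finset.sum_nonneg fun z _ => evnear_nn hX _ _ ω)
          (Finset.sum_nonneg fun x _ => evnear_nn hX _ _ ω)]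
        unfold tails
        rw [Finset.sum_product, Finset.sum_product]
      simp only [e]
      rw [lintegral_add_left
        (Finset.measurable_sum _ fun p _ => evnear_meas hX p.1 p.2).ennreal_ofReal]
      refine (add_le_add g1 g2).trans ?_
      rw [← ENNReal.ofReal_add (Finset.sum_nonneg fun z _ => by positivity)
        (Finset.sum_nonneg fun z _ => by positivity)]
      apply ENNReal.ofReal_le_ofReal
      refine (add_le_add g3 g4).trans (le_of_eq ?_)
      have h1'' := h1'.ne'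
      field_simp
      norm_num
    refine (evnear_markov ?_ he g5).trans ?_
    · unfold tails
      exact (Finset.measurable_sum _ fun z _ => Finset.measurable_sum _ fun x _ =>
        evnear_meas hX z x).add (Finset.measurable_sum _ fun z _ => Finset.measurable_sum _
          fun x _ => evnear_meas hX z x)
    · apply ENNReal.ofReal_le_ofReal
      rw [div_le_iff₀ he, div_le_iff₀ (by positivity)]
      rw [le_div_iff₀ (by positivity)] at hm0
      nlinarith
  -- event E
  have hE : P {ω | ∃ b ∈ Finset.Icc (N - k - m0) (N - k + m0), X (b - 1) ω < c1} ≤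
      ENNReal.ofReal (ηp / 5) := by
    refine (evnear_union _ (fun b ω => X (b - 1) ω < c1) (b := 2 * c1) fun b _ =>
      evnear_inv hX h1 hM (b - 1) hc1p).trans ?_
    apply ENNReal.ofReal_le_ofReal
    have h5 : ((Finset.Icc (N - k - m0) (N - k + m0)).card : ℝ) ≤ 2 * m0 + 1 := by
      rw [Nat.card_Icc]
      have : N - k + m0 + 1 - (N - k - m0) ≤ 2 * m0 + 1 := by omega
      exact_mod_cast this
    have h6 : c1 ≤ ηp / (10 * (2 * m0 + 1)) := min_le_right _ _
    rw [le_div_iff₀ (by positivity)] at h6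
    have h7 : ((Finset.Icc (N - k - m0) (N - k + m0)).card : ℝ) * (2 * c1) ≤
        (2 * m0 + 1) * (2 * c1) := by gcongr
    linarith
  -- assembly
  refine le_trans (measure_mono ?_) (evnear_five hη hA hB hCC hD hE)
  intro ω hω
  by_contra hno
  simp only [Set.mem_union, not_or] at hno
  obtain ⟨n1', n2, n3, n4, n5⟩ := hno
  apply hω
  refine ⟨?_, ?_, ?_, ?_, ?_⟩
  · intro z x z1 z2 z3
    by_contra hc
    push Not at hc
    exact n1' ⟨(z, x), by
      rw [Finset.mem_product, Finset.mem_Ico, Finset.mem_Ico]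
      exact ⟨⟨by omega, by omega⟩, by omega, z3⟩, z2, hc⟩
  · intro b b1 b2
    by_contra hc
    push Not at hc
    refine n2 ⟨b, Finset.mem_Ico.2 ⟨by omega, b2⟩, ?_⟩
    rw [ha, ← Real.rpow_neg hNpos.le]
    exact hc
  · by_contra hc
    push Not at hc
    exact n3 hc
  · by_contra hc
    push Not at hc
    exact n4 hc
  · intro b b1 b2 b3 b4
    by_contra hc
    push Not at hc
    exact n5 ⟨b, Finset.mem_Icc.2 ⟨by omega, by omega⟩, hc⟩

end Pool.Agent.Helper98.EX
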