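import Pool.Agent.Helper98.EX.SLDefs

/-!
# EX, module SL: the streaming lemma
-/

namespace Pool.Agent.Helper98.EX

open Finset

variable {N : ℕ}

/-! ### counts -/

theorem sl_cnt_add (η : Cfg N) {a b c : ℕ} (h1 : a ≤ b) (h2 : b ≤ c) :
    cnt η a b + cnt η b c = cnt η a c := by
  unfold cnt
  exact Finset.sum_Ico_consecutive _ h1 h2

theorem sl_cnt_zero {η : Cfg N} {a b : ℕ} (h : ∀ x, a ≤ x → x < b → occ η x = false) :
    cnt η a b = 0 := by
  unfold cnt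
  apply Finset.sum_eq_zero
  intro i hi
  rw [Finset.mem_Ico] at hi
  rw [h i hi.1 hi.2]
  simp

theorem sl_cnt_full {η : Cfg N} {a b : ℕ} (h : ∀ x, a ≤ x → x < b → occ η x = true) :
    cnt η a b = b - a := by
  unfold cnt
  have e : ∀ i ∈ Finset.Ico a b, (if occ η i = true then 1 else 0) = 1 := by
    intro i hi
    rw [Finset.mem_Ico] at hi
    rw [h i hi.1 hi.2]
    simp
  rw [Finset.sum_congr rfl e]
  simp

theorem sl_cnt_mir (hM : ST_MIR) (η : Cfg N) {a b : ℕ} (h1 : a ≤ b) (h2 : b ≤ N) :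
    cnt (mir η) a b + cnt η (N - b) (N - a) = b - a := by
  have e1 := (hM N).2.2.1 η a (h1.trans h2)
  have e2 := (hM N).2.2.1 η b h2
  have e3 := ht_cnt (mir η) h1 h2
  have e4 := ht_cnt η (show N - b ≤ N - a by omega) (by omega)
  omega

/-! ### the open bonds of a slot -/

theorem sl_mem_mirS {S : Finset ℕ} {y : ℕ} : y ∈ mirS N S ↔ 1 ≤ y ∧ y < N ∧ N - y ∈ S := by
  unfold mirS full
  rw [Finset.mem_image]
  constructor
  · rintro ⟨x, hx, rfl⟩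
    rw [Finset.mem_inter, Finset.mem_Ico] at hx
    have : N - (N - x) = x := by omega
    rw [this]
    exact ⟨by omega, by omega, hx.1⟩
  · rintro ⟨h1, h2, h3⟩
    exact ⟨N - y, Finset.mem_inter.2 ⟨h3, Finset.mem_Ico.2 ⟨by omega, by omega⟩⟩, by omega⟩

/-- open bonds in slot `t` -/
def sl_S (N : ℕ) (L L' : LD) (t : ℕ) : Finset ℕ :=
  ((L.Wn t).biUnion (fun p => Finset.Ioo p.1 p.2) ∪
    (L'.Wn t).biUnion (fun p => Finset.Ioo (N - p.2) (N - p.1))) ∪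
    ((Finset.Icc 1 L.n).filter (fun j => t = L.ab j)).biUnion
      (fun j => Finset.Ioo (L.ql j) (N - L'.ql j))

theorem sl_mem_Wn {L : LD} {t : ℕ} {P : ℕ × ℕ → Prop} :
    (∃ p ∈ L.Wn t, P p) ↔ ∃ i, L.act i t ∧ P (L.lw i t, L.e (L.cc i t + 1)) := by
  unfold LD.Wn
  constructor
  · rintro ⟨p, hp, hP⟩
    rw [Finset.mem_image] at hp
    obtain ⟨i, hi, rfl⟩ := hp
    exact ⟨i, (Finset.mem_filter.1 hi).2, hP⟩
  · rintro ⟨i, hi, hP⟩
    refine ⟨_, Finset.mem_image.2 ⟨i, Finset.mem_filter.2 ⟨Finset.mem_Icc.2 ⟨hi.1, hi.2.1⟩, hi⟩,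
      rfl⟩, hP⟩

theorem sl_mem_S {L L' : LD} {t x : ℕ} : x ∈ sl_S N L L' t ↔
    (∃ i, L.act i t ∧ L.lw i t < x ∧ x < L.e (L.cc i t + 1)) ∨
    (∃ i, L'.act i t ∧ N - L'.e (L'.cc i t + 1) < x ∧ x < N - L'.lw i t) ∨
    (∃ j, 1 ≤ j ∧ j ≤ L.n ∧ t = L.ab j ∧ L.ql j < x ∧ x < N - L'.ql j) := by
  unfold sl_S
  rw [Finset.mem_union, Finset.mem_union, Finset.mem_biUnion, Finset.mem_biUnion,
    Finset.mem_biUnion, sl_mem_Wn, sl_mem_Wn, or_assoc]
  simp only [Finset.mem_Ioo]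
  refine or_congr Iff.rfl (or_congr Iff.rfl ?_)
  constructor
  · rintro ⟨j, hj, h1, h2⟩
    rw [Finset.mem_filter, Finset.mem_Icc] at hj
    exact ⟨j, hj.1.1, hj.1.2, hj.2, h1, h2⟩
  · rintro ⟨j, j1, j2, hj, h1, h2⟩
    exact ⟨j, Finset.mem_filter.2 ⟨Finset.mem_Icc.2 ⟨j1, j2⟩, hj⟩, h1, h2⟩

/-- compatible halves -/
structure sl_G (N : ℕ) (L L' : LD) : Prop where
  v : L.Valid
  v' : L'.Valid
  x : L.x0 + L'.x0 = N
  w : L.w = L'.w
  n : L.n = L'.n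
  ms : L.M + L.s = L'.M + L'.s

section geom

variable {L L' : LD}

theorem sl_G.symm (h : sl_G N L L') : sl_G N L' L :=
  ⟨h.v', h.v, by have := h.x; omega, h.w.symm, h.n.symm, h.ms.symm⟩

theorem sl_G.ab (h : sl_G N L L') (j : ℕ) : L.ab j = L'.ab j := by
  unfold LD.ab
  have := h.ms
  omega

theorem sl_G.na (h : sl_G N L L') (t : ℕ) : L.na t = L'.na t := by
  unfold LD.na
  rw [h.n]
  congr 1
  apply Finset.filter_congr
  intro j _
  rw [h.ab j]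

theorem sl_G.le (h : sl_G N L L') : L.x0 ≤ N := by
  have := h.x
  omega

/-- the sets of the two halves are mirror images -/
theorem sl_mir_S (h : sl_G N L L') {t y : ℕ} (hy : y ∈ mirS N (sl_S N L L' t)) :
    y ∈ sl_S N L' L t := by
  rw [sl_mem_mirS] at hy
  obtain ⟨h1, h2, h3⟩ := hy
  rw [sl_mem_S] at h3 ⊢
  rcases h3 with ⟨i, hi, a, b⟩ | ⟨i, hi, a, b⟩ | ⟨j, j1, j2, hj, a, b⟩
  · exact Or.inr (Or.inl ⟨i, hi, by omega, by omega⟩)
  · exact Or.inl ⟨i, hi, by omega, by omega⟩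
  · exact Or.inr (Or.inr ⟨j, j1, h.n ▸ j2, (h.ab j) ▸ hj, by omega, by omega⟩)

theorem sl_mir_S' (h : sl_G N L L') {t y : ℕ} (h1 : 1 ≤ y) (h2 : y < N)
    (hy : y ∈ sl_S N L' L t) (hle : ∀ i, L'.act i t → L'.e (L'.cc i t + 1) ≤ N)
    (hle' : ∀ j, 1 ≤ j → j ≤ L.n → L'.ql j ≤ N) :
    y ∈ mirS N (sl_S N L L' t) := by
  rw [sl_mem_mirS]
  refine ⟨h1, h2, ?_⟩
  rw [sl_mem_S] at hy ⊢
  rcases hy with ⟨i, hi, a, b⟩ | ⟨i, hi, a, b⟩ | ⟨j, j1, j2, hj, a, b⟩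
  · have := hle i hi
    exact Or.inr (Or.inl ⟨i, hi, by omega, by omega⟩)
  · exact Or.inl ⟨i, hi, by omega, by omega⟩
  · have := hle' j j1 (h.n ▸ j2)
    exact Or.inr (Or.inr ⟨j, j1, h.n ▸ j2, (h.ab j) ▸ hj, by omega, by omega⟩)

theorem sl_P1 (hS : ST_SLA) (h : sl_G N L L') {t i : ℕ} (hi : L.act i t) :
    L.lw i t ∉ sl_S N L L' t ∧ L.e (L.cc i t + 1) ∉ sl_S N L L' t ∧
    (∀ x, L.lw i t < x → x < L.e (L.cc i t + 1) → x ∈ sl_S N L L' t) := by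
  have hs := hS N L h.v h.le
  have hs' := hS N L' h.v' h.symm.le
  have hg := hs.1 t i hi
  have hx := h.x
  have key : ∀ y, L.lw i t ≤ y → y ≤ L.e (L.cc i t + 1) →
      (y = L.lw i t ∨ y = L.e (L.cc i t + 1)) → y ∉ sl_S N L L' t := by
    intro y y1 y2 y3 hy
    rw [sl_mem_S] at hy
    rcases hy with ⟨i', hi', a, b⟩ | ⟨i', hi', a, b⟩ | ⟨j, j1, j2, hj, a, b⟩
    · rcases lt_trichotomy i i' with hlt | heq | hgt
      · have := hs.2.1 t i i' hi hi' hlt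
        omega
      · subst heq
        omega
      · have := hs.2.1 t i' i hi' hi hgt
        omega
    · have := hs'.1 t i' hi'
      omega
    · have := hs.2.2.1 t i j j1 j2 hj hi
      omega
  refine ⟨key _ le_rfl (by omega) (Or.inl rfl), key _ (by omega) le_rfl (Or.inr rfl), ?_⟩
  intro x x1 x2
  rw [sl_mem_S]
  exact Or.inl ⟨i, hi, x1, x2⟩

theorem sl_P2 (hS : ST_SLA) (h : sl_G N L L') {t x : ℕ} (h2 : x < L.x0)
    (h3 : ∀ i, L.act i t → ¬ (L.lw i t ≤ x ∧ x < L.e (L.cc i t + 1)))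
    (h4 : ∀ j, 1 ≤ j → j ≤ L.n → t = L.ab j → x < L.ql j) :
    x ∉ sl_S N L L' t ∧ x + 1 ∉ sl_S N L L' t := by
  have hs' := hS N L' h.v' h.symm.le
  have hx := h.x
  constructor
  · intro hy
    rw [sl_mem_S] at hy
    rcases hy with ⟨i', hi', a, b⟩ | ⟨i', hi', a, b⟩ | ⟨j, j1, j2, hj, a, b⟩
    · exact h3 i' hi' ⟨by omega, by omega⟩
    · have := hs'.1 t i' hi'
      omega
    · have := h4 j j1 j2 hj
      omega
  · intro hy
    rw [sl_mem_S] at hy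
    rcases hy with ⟨i', hi', a, b⟩ | ⟨i', hi', a, b⟩ | ⟨j, j1, j2, hj, a, b⟩
    · exact h3 i' hi' ⟨by omega, by omega⟩
    · have := hs'.1 t i' hi'
      omega
    · have := h4 j j1 j2 hj
      omega

theorem sl_ab_inj {j j' : ℕ} (h : L.ab j = L.ab j') : j = j' := by
  unfold LD.ab at h
  omega

theorem sl_P3 (hS : ST_SLA) (h : sl_G N L L') {t j : ℕ} (j1 : 1 ≤ j) (j2 : j ≤ L.n)
    (hj : t = L.ab j) : L.ql j ∉ sl_S N L L' t ∧ N - L'.ql j ∉ sl_S N L L' t ∧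
    ∀ x, L.ql j < x → x < N - L'.ql j → x ∈ sl_S N L L' t := by
  have hs := hS N L h.v h.le
  have hs' := hS N L' h.v' h.symm.le
  have hq := hs.2.2.2.1 j j1 j2
  have hq' := hs'.2.2.2.1 j j1 (h.n ▸ j2)
  have hx := h.x
  have key : ∀ y, (y = L.ql j ∨ y = N - L'.ql j) → y ∉ sl_S N L L' t := by
    intro y y3 hy
    rw [sl_mem_S] at hy
    rcases hy with ⟨i', hi', a, b⟩ | ⟨i', hi', a, b⟩ | ⟨j', j1', j2', hj', a, b⟩
    · have := hs.2.2.1 t i' j j1 j2 hj hi'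
      omega
    · have := hs'.2.2.1 t i' j j1 (h.n ▸ j2) ((h.ab j) ▸ hj) hi'
      omega
    · have := sl_ab_inj (hj.symm.trans hj')
      subst this
      omega
  refine ⟨key _ (Or.inl rfl), key _ (Or.inr rfl), fun x x1 x2 => ?_⟩
  rw [sl_mem_S]
  exact Or.inr (Or.inr ⟨j, j1, j2, hj, x1, x2⟩)

theorem sl_dl (hS : ST_SLA) (h : sl_G N L L') {j : ℕ} (j2 : j ≤ L.n) :
    L.x0 - L.w ≤ L.dl j ∧ L.dl j ≤ L.x0 := by
  unfold LD.dl
  split_ifs with h0
  · omega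
  · have hq := (hS N L h.v h.le).2.2.2.1 j (by omega) j2
    have := le_max_right (L.ql j) (L.x0 - L.w)
    omega

theorem sl_na_le (t : ℕ) : L.na t ≤ L.n := by
  unfold LD.na
  refine (Finset.card_filter_le _ _).trans ?_
  simp

theorem sl_P4 (hS : ST_SLA) (h : sl_G N L L') {t : ℕ}
    (hno : ∀ j, 1 ≤ j → j ≤ L.n → t ≠ L.ab j) :
    L.dl (L.na t) ∉ sl_S N L L' t ∧ N - L'.dl (L'.na t) ∉ sl_S N L L' t := by
  have hs := hS N L h.v h.le
  have hs' := hS N L' h.v' h.symm.le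
  have hd := sl_dl hS h (sl_na_le (L := L) t)
  have hd' := sl_dl hS h.symm (sl_na_le (L := L') t)
  have hx := h.x
  constructor
  · intro hy
    rw [sl_mem_S] at hy
    rcases hy with ⟨i', hi', a, b⟩ | ⟨i', hi', a, b⟩ | ⟨j', j1', j2', hj', a, b⟩
    · have := hs.1 t i' hi'
      omega
    · have := hs'.1 t i' hi'
      omega
    · exact hno j' j1' j2' hj'
  · intro hy
    rw [sl_mem_S] at hy
    rcases hy with ⟨i', hi', a, b⟩ | ⟨i', hi', a, b⟩ | ⟨j', j1', j2', hj', a, b⟩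
    · have := hs.1 t i' hi'
      omega
    · have := hs'.1 t i' hi'
      omega
    · exact hno j' j1' j2' hj'

theorem sl_sub (hS : ST_SLA) (h : sl_G N L L') (t : ℕ) :
    sl_S N L L' t ⊆ Finset.Ioo L.A (N - L'.A) := by
  have hs := hS N L h.v h.le
  have hs' := hS N L' h.v' h.symm.le
  have hx := h.x
  have hn := h.v.n1
  have hn' := h.v'.n1
  intro x hy
  rw [Finset.mem_Ioo]
  rw [sl_mem_S] at hy
  rcases hy with ⟨i', hi', a, b⟩ | ⟨i', hi', a, b⟩ | ⟨j', j1', j2', hj', a, b⟩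
  · have := hs.1 t i' hi'
    omega
  · have := hs'.1 t i' hi'
    omega
  · have q := hs.2.2.2.1 j' j1' j2'
    have q' := hs'.2.2.2.1 j' j1' (h.n ▸ j2')
    omega

theorem sl_na_abs {j : ℕ} (j1 : 1 ≤ j) (j2 : j ≤ L.n) : L.na (L.ab j + 1) = j := by
  unfold LD.na
  have e : (Finset.Icc 1 L.n).filter (fun i => L.ab i < L.ab j + 1) = Finset.Icc 1 j := by
    ext i
    rw [Finset.mem_filter, Finset.mem_Icc, Finset.mem_Icc]
    unfold LD.ab
    omega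
  rw [e]
  simp

theorem sl_na_same {t : ℕ} (hno : ∀ j, 1 ≤ j → j ≤ L.n → t ≠ L.ab j) :
    L.na (t + 1) = L.na t := by
  unfold LD.na
  congr 1
  apply Finset.filter_congr
  intro i hi
  rw [Finset.mem_Icc] at hi
  have := hno i hi.1 hi.2
  omega

end geom

/-! ### one half, one slot -/

/-- the slot was successful for the half `L` -/
def sl_ok (L : LD) (t : ℕ) (η ξ : Cfg N) : Prop :=
  (∀ i, L.act i t → cnt ξ (L.lw i t) (L.e (L.cc i t + 1)) = 1 ∧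
      ∀ x, L.lw i t ≤ x → x < L.e (L.cc i t) → occ ξ x = false) ∧
  (∀ x, L.A ≤ x → x < L.x0 → (∀ i, L.act i t → ¬ (L.lw i t ≤ x ∧ x < L.e (L.cc i t + 1))) →
      (∀ j, 1 ≤ j → j ≤ L.n → t = L.ab j → x < L.ql j) → occ ξ x = occ η x)

theorem sl_filter (a b : ℕ) (P : ℕ → Prop) :
    ∃ X : Finset ℕ, ∀ x, x ∈ X ↔ (a ≤ x ∧ x < b) ∧ P x := by
  classical
  refine ⟨(Finset.Ico a b).filter P, fun x => ?_⟩
  rw [Finset.mem_filter, Finset.mem_Ico]

theorem sl_half (hS : ST_SLA) (hL : ST_LOC) {L : LD} (hv : L.Valid) (hx : L.x0 ≤ N)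
    {r l : ℕ → ℝ} (hA : Adm N r l) {S : Finset ℕ} {t τ : ℕ} {e1 : ℝ} (he : 0 ≤ e1)
    (p1 : ∀ i, L.act i t → L.lw i t ∉ S ∧ L.e (L.cc i t + 1) ∉ S ∧
      (∀ x, L.lw i t < x → x < L.e (L.cc i t + 1) → x ∈ S))
    (p2 : ∀ x, L.A ≤ x → x < L.x0 →
      (∀ i, L.act i t → ¬ (L.lw i t ≤ x ∧ x < L.e (L.cc i t + 1))) →
      (∀ j, 1 ≤ j → j ≤ L.n → t = L.ab j → x < L.ql j) → x ∉ S ∧ x + 1 ∉ S)
    (H : ∀ (c a : ℕ) (S : Finset ℕ) (η : Cfg N), 1 ≤ c → c ≤ L.M → L.e (c - 1) ≤ a →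
      a < L.e c → a ∉ S → L.e (c + 1) ∉ S → (∀ x, a < x → x < L.e (c + 1) → x ∈ S) →
      cnt η a (L.e (c + 1)) = 1 → (∃ x, a ≤ x ∧ x < L.e c ∧ occ η x = true) →
      pr r l (fun _ => S) τ {ξ | ∃ i, a ≤ i ∧ i < L.e c ∧ occ ξ i = true} η ≤ e1)
    {η : Cfg N} (hη : η ∈ (L.Pat t : Set (Cfg N))) :
    pr r l (fun _ => S) τ {ξ | ¬ sl_ok L t η ξ} η ≤ L.n * e1 := by
  have hs := hS N L hv hx
  set I : Finset ℕ := (Finset.Icc 1 L.n).filter (fun i => L.act i t) with hI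
  obtain ⟨X, hX⟩ : ∃ X : Finset ℕ, ∀ x, x ∈ X ↔ (L.A ≤ x ∧ x < L.x0) ∧
      (∀ i, L.act i t → ¬ (L.lw i t ≤ x ∧ x < L.e (L.cc i t + 1))) ∧
      (∀ j, 1 ≤ j → j ≤ L.n → t = L.ab j → x < L.ql j) := by
    exact sl_filter L.A L.x0 _
  have hsub : {ξ : Cfg N | ¬ sl_ok L t η ξ} ⊆
      (⋃ i ∈ I, ({ξ | cnt ξ (L.lw i t) (L.e (L.cc i t + 1)) ≠
        cnt η (L.lw i t) (L.e (L.cc i t + 1))} ∪
        {ξ | ∃ x, L.lw i t ≤ x ∧ x < L.e (L.cc i t) ∧ occ ξ x = true})) ∪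
      (⋃ x ∈ X, {ξ | occ ξ x ≠ occ η x}) := by
    intro ξ hξ
    by_contra hno
    apply hξ
    rw [Set.mem_union, not_or] at hno
    obtain ⟨h1, h2⟩ := hno
    constructor
    · intro i hi
      have hiI : i ∈ I := Finset.mem_filter.2 ⟨Finset.mem_Icc.2 ⟨hi.1, hi.2.1⟩, hi⟩
      have h3 : ξ ∉ ({ξ | cnt ξ (L.lw i t) (L.e (L.cc i t + 1)) ≠
        cnt η (L.lw i t) (L.e (L.cc i t + 1))} ∪
        {ξ | ∃ x, L.lw i t ≤ x ∧ x < L.e (L.cc i t) ∧ occ ξ x = true} : Set (Cfg N)) :=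
        fun hc => h1 (Set.mem_iUnion₂.2 ⟨i, hiI, hc⟩)
      rw [Set.mem_union, not_or] at h3
      refine ⟨?_, ?_⟩
      · have h4 : cnt ξ (L.lw i t) (L.e (L.cc i t + 1)) =
            cnt η (L.lw i t) (L.e (L.cc i t + 1)) := by
          by_contra hc
          exact h3.1 hc
        rw [h4]
        exact (hs.2.2.2.2.1 t i η hi hη).1
      · intro x x1 x2
        by_contra hc
        exact h3.2 ⟨x, x1, x2, by simpa using hc⟩
    · intro x x1 x2 x3 x4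
      by_contra hc
      exact h2 (Set.mem_iUnion₂.2 ⟨x, (hX x).2 ⟨⟨x1, x2⟩, x3, x4⟩, hc⟩)
  refine (pr_mono hA _ τ hsub η).trans ((pr_union hA _ τ _ _ η).trans ?_)
  have b2 : pr r l (fun _ => S) τ (⋃ x ∈ X, {ξ : Cfg N | occ ξ x ≠ occ η x}) η ≤ 0 := by
    refine (pr_biUnion hA _ τ X _ η).trans (le_of_eq ?_)
    apply Finset.sum_eq_zero
    intro x hxX
    rw [hX] at hxX
    exact hL.1 N r l (fun _ => S) τ x η fun _ => p2 x hxX.1.1 hxX.1.2 hxX.2.1 hxX.2.2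
  have b1 : pr r l (fun _ => S) τ (⋃ i ∈ I, ({ξ | cnt ξ (L.lw i t) (L.e (L.cc i t + 1)) ≠
        cnt η (L.lw i t) (L.e (L.cc i t + 1))} ∪
        {ξ | ∃ x, L.lw i t ≤ x ∧ x < L.e (L.cc i t) ∧ occ ξ x = true})) η ≤ L.n * e1 := by
    refine (pr_biUnion hA _ τ I _ η).trans ?_
    have hb : ∀ i ∈ I, pr r l (fun _ => S) τ ({ξ : Cfg N | cnt ξ (L.lw i t) (L.e (L.cc i t + 1)) ≠
        cnt η (L.lw i t) (L.e (L.cc i t + 1))} ∪
        {ξ | ∃ x, L.lw i t ≤ x ∧ x < L.e (L.cc i t) ∧ occ ξ x = true}) η ≤ e1 := by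
      intro i hi
      have hi' : L.act i t := (Finset.mem_filter.1 hi).2
      obtain ⟨g1, g2, g3, g4, g5, g6⟩ := hs.1 t i hi'
      obtain ⟨q1, q2, q3⟩ := p1 i hi'
      obtain ⟨c1, c2⟩ := hs.2.2.2.2.1 t i η hi' hη
      refine (pr_union hA _ τ _ _ η).trans ?_
      have z1 := hL.2.1 N r l (fun _ => S) τ (L.lw i t) (L.e (L.cc i t + 1)) η (by omega)
        (by omega) fun _ => ⟨q1, q2⟩
      have z2 := H (L.cc i t) (L.lw i t) S η g5 hi'.2.2.2 g6 g2 q1 q2 q3 c1 c2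
      rw [z1, zero_add]
      exact z2
    refine (Finset.sum_le_sum hb).trans ?_
    rw [Finset.sum_const, nsmul_eq_mul]
    apply mul_le_mul_of_nonneg_right _ he
    have : I.card ≤ L.n := (Finset.card_filter_le _ _).trans (by simp)
    exact_mod_cast this
  linarith

/-! ### the invariant -/

/-- invariant at the beginning of slot `t` -/
def sl_I (L L' : LD) (t : ℕ) : Set (Cfg N) :=
  {η | η ∈ (L.Pat t : Set (Cfg N)) ∧ mir η ∈ (L'.Pat t : Set (Cfg N)) ∧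
    cnt η (L.dl (L.na t)) (N - L'.dl (L'.na t)) + L.x0 = N - L'.dl (L'.na t)}

theorem sl_Adm {r l : ℕ → ℝ} (h : Adm N r l) : Adm N (mirr N r) (mirr N l) := by
  intro x h1 h2
  exact h (N - x) (by omega) (by omega)

section main

variable {L L' : LD} {r l : ℕ → ℝ} {τ : ℕ} {e1 e2 : ℝ}

theorem sl_left (hS : ST_SLA) (hL : ST_LOC) (h : sl_G N L L') (hA : Adm N r l) (he : 0 ≤ e1)
    (H : ∀ (c a : ℕ) (S : Finset ℕ) (η : Cfg N), 1 ≤ c → c ≤ L.M → L.e (c - 1) ≤ a →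
      a < L.e c → a ∉ S → L.e (c + 1) ∉ S → (∀ x, a < x → x < L.e (c + 1) → x ∈ S) →
      cnt η a (L.e (c + 1)) = 1 → (∃ x, a ≤ x ∧ x < L.e c ∧ occ η x = true) →
      pr r l (fun _ => S) τ {ξ | ∃ i, a ≤ i ∧ i < L.e c ∧ occ ξ i = true} η ≤ e1)
    {t : ℕ} {η : Cfg N} (hη : η ∈ (L.Pat t : Set (Cfg N))) :
    pr r l (fun _ => sl_S N L L' t) τ {ξ | ¬ sl_ok L t η ξ} η ≤ L.n * e1 :=
  sl_half hS hL h.v h.le hA he (fun _ hi => sl_P1 hS h hi)
    (fun _ _ x2 x3 x4 => sl_P2 hS h x2 x3 x4) H hη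

theorem sl_right (hS : ST_SLA) (hL : ST_LOC) (hM : ST_MIR) (h : sl_G N L L') (hA : Adm N r l)
    (he : 0 ≤ e1)
    (H : ∀ (c a : ℕ) (S : Finset ℕ) (η : Cfg N), 1 ≤ c → c ≤ L'.M → L'.e (c - 1) ≤ a →
      a < L'.e c → a ∉ S → L'.e (c + 1) ∉ S → (∀ x, a < x → x < L'.e (c + 1) → x ∈ S) →
      cnt η a (L'.e (c + 1)) = 1 → (∃ x, a ≤ x ∧ x < L'.e c ∧ occ η x = true) →
      pr (mirr N r) (mirr N l) (fun _ => S) τ {ξ | ∃ i, a ≤ i ∧ i < L'.e c ∧ occ ξ i = true} η ≤ e1)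
    {t : ℕ} {η : Cfg N} (hη : mir η ∈ (L'.Pat t : Set (Cfg N))) :
    pr r l (fun _ => sl_S N L L' t) τ {ξ | ¬ sl_ok L' t (mir η) (mir ξ)} η ≤ L'.n * e1 := by
  have hs' := hS N L' h.v' h.symm.le
  have e : pr r l (fun _ => sl_S N L L' t) τ {ξ | ¬ sl_ok L' t (mir η) (mir ξ)} η =
      pr (mirr N r) (mirr N l) (fun _ => mirS N (sl_S N L L' t)) τ
        {ξ | ¬ sl_ok L' t (mir η) ξ} (mir η) := by
    unfold pr
    rw [(hM N).2.2.2 r l (fun _ => sl_S N L L' t) τ]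
    congr 1
    funext ζ
    by_cases hc : sl_ok L' t (mir η) ζ
    · rw [ind_of_not_mem, ind_of_not_mem]
      · intro hc'
        exact hc' hc
      · intro hc'
        have : ¬ sl_ok L' t (mir η) (mir (mir ζ)) := hc'
        rw [(hM N).1 ζ] at this
        exact this hc
    · rw [ind_of_mem, ind_of_mem]
      · exact hc
      · show ¬ sl_ok L' t (mir η) (mir (mir ζ))
        rw [(hM N).1 ζ]
        exact hc
  rw [e]
  refine sl_half hS hL h.v' h.symm.le (sl_Adm hA) he (fun i hi => ?_) (fun x _ x2 x3 x4 => ?_) H hη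
  · obtain ⟨q1, q2, q3⟩ := sl_P1 hS h.symm hi
    refine ⟨fun hc => q1 (sl_mir_S h hc), fun hc => q2 (sl_mir_S h hc), fun x x1 x2 => ?_⟩
    have g := hs'.1 t i hi
    have hx := h.x
    refine sl_mir_S' h (by omega) (by omega) (q3 x x1 x2) (fun i' hi' => ?_) (fun j j1 j2 => ?_)
    · have := hs'.1 t i' hi'
      omega
    · have := hs'.2.2.2.1 j j1 (h.n ▸ j2)
      omega
  · obtain ⟨q1, q2⟩ := sl_P2 hS h.symm x2 x3 x4
    exact ⟨fun hc => q1 (sl_mir_S h hc), fun hc => q2 (sl_mir_S h hc)⟩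

theorem sl_slot (hS : ST_SLA) (hL : ST_LOC) (hM : ST_MIR) (h : sl_G N L L') (hA : Adm N r l)
    (he : 0 ≤ e1) (he2 : 0 ≤ e2)
    (H : ∀ (c a : ℕ) (S : Finset ℕ) (η : Cfg N), 1 ≤ c → c ≤ L.M → L.e (c - 1) ≤ a →
      a < L.e c → a ∉ S → L.e (c + 1) ∉ S → (∀ x, a < x → x < L.e (c + 1) → x ∈ S) →
      cnt η a (L.e (c + 1)) = 1 → (∃ x, a ≤ x ∧ x < L.e c ∧ occ η x = true) →
      pr r l (fun _ => S) τ {ξ | ∃ i, a ≤ i ∧ i < L.e c ∧ occ ξ i = true} η ≤ e1)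
    (H' : ∀ (c a : ℕ) (S : Finset ℕ) (η : Cfg N), 1 ≤ c → c ≤ L'.M → L'.e (c - 1) ≤ a →
      a < L'.e c → a ∉ S → L'.e (c + 1) ∉ S → (∀ x, a < x → x < L'.e (c + 1) → x ∈ S) →
      cnt η a (L'.e (c + 1)) = 1 → (∃ x, a ≤ x ∧ x < L'.e c ∧ occ η x = true) →
      pr (mirr N r) (mirr N l) (fun _ => S) τ {ξ | ∃ i, a ≤ i ∧ i < L'.e c ∧ occ ξ i = true} η ≤ e1)
    (H2 : ∀ (l0 r0 : ℕ) (S : Finset ℕ) (η : Cfg N), L.x0 - 3 * L.w ≤ l0 → l0 < L.x0 → L.x0 < r0 →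
      r0 ≤ L.x0 + 3 * L.w → L.A ≤ l0 → r0 ≤ N - L'.A →
      l0 ∉ S → r0 ∉ S → (∀ x, l0 < x → x < r0 → x ∈ S) → cnt η l0 r0 = r0 - L.x0 →
      pr r l (fun _ => S) τ (sorted l0 (L.x0 - L.w) (L.x0 + L.w) r0)ᶜ η ≤ e2)
    {t : ℕ} {η : Cfg N} (hη : η ∈ (sl_I L L' t : Set (Cfg N))) :
    pr r l (fun _ => sl_S N L L' t) τ (sl_I L L' (t + 1))ᶜ η ≤ 2 * L.n * e1 + e2 := by
  obtain ⟨i1, i2, i3⟩ := hη
  have hs := hS N L h.v h.le
  have hs' := hS N L' h.v' h.symm.le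
  have hx := h.x
  have hwn := h.w
  have b1 := sl_left (τ := τ) hS hL h hA he H i1
  have b2 := sl_right (τ := τ) hS hL hM h hA he H' i2
  rw [← h.n] at b2
  have hd := sl_dl hS h (sl_na_le (L := L) t)
  have hd' := sl_dl hS h.symm (sl_na_le (L := L') t)
  -- the third event
  obtain ⟨E, hE1, hE2⟩ : ∃ E : Set (Cfg N), pr r l (fun _ => sl_S N L L' t) τ E η ≤ e2 ∧
      ∀ ξ, ξ ∉ E → (∀ j, 1 ≤ j → j ≤ L.n → t = L.ab j → ∀ x, L.ql j ≤ x → x < L.x0 - L.w →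
        occ ξ x = false) ∧ (∀ j, 1 ≤ j → j ≤ L'.n → t = L'.ab j → ∀ x, L'.ql j ≤ x →
        x < L'.x0 - L'.w → occ (mir ξ) x = false) ∧
        cnt ξ (L.dl (L.na (t + 1))) (N - L'.dl (L'.na (t + 1))) + L.x0 =
          N - L'.dl (L'.na (t + 1)) := by
    by_cases hab : ∃ j, 1 ≤ j ∧ j ≤ L.n ∧ t = L.ab j
    · obtain ⟨j, j1, j2, hj⟩ := hab
      have j2' : j ≤ L'.n := h.n ▸ j2
      have hj' : t = L'.ab j := (h.ab j) ▸ hj
      have q := hs.2.2.2.1 j j1 j2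
      have q' := hs'.2.2.2.1 j j1 j2'
      obtain ⟨s1, s2, s3⟩ := sl_P3 hS h j1 j2 hj
      obtain ⟨c1, c2, c3⟩ := hs.2.2.2.2.2.1 j η j1 j2 (hj ▸ i1)
      obtain ⟨c1', c2', c3'⟩ := hs'.2.2.2.2.2.1 j (mir η) j1 j2' (hj' ▸ i2)
      have c2t : L.na t = j - 1 := hj ▸ c2
      have c2t' : L'.na t = j - 1 := hj' ▸ c2'
      rw [c2t, c2t'] at i3
      rw [c2t] at hd
      rw [c2t'] at hd'
      have m1 := sl_cnt_mir hM η c1' (by omega : L'.dl (j - 1) ≤ N)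
      have a1 := sl_cnt_add η c1 (by omega : L.dl (j - 1) ≤ N - L'.dl (j - 1))
      have a2 := sl_cnt_add η (by omega : L.ql j ≤ N - L'.dl (j - 1))
        (by omega : N - L'.dl (j - 1) ≤ N - L'.ql j)
      have htot : cnt η (L.ql j) (N - L'.ql j) = N - L'.ql j - L.x0 := by omega
      refine ⟨(sorted (L.ql j) (L.x0 - L.w) (L.x0 + L.w) (N - L'.ql j))ᶜ ∪
        {ξ | cnt ξ (L.ql j) (N - L'.ql j) ≠ cnt η (L.ql j) (N - L'.ql j)}, ?_, ?_⟩
      · refine (pr_union hA _ τ _ _ η).trans ?_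
        have z1 := hL.2.1 N r l (fun _ => sl_S N L L' t) τ (L.ql j) (N - L'.ql j) η (by omega)
          (by omega) fun _ => ⟨s1, s2⟩
        have z2 := H2 (L.ql j) (N - L'.ql j) (sl_S N L L' t) η q.1 q.2.1 (by omega) (by omega)
          q.2.2 (by omega) s1 s2 s3 htot
        rw [z1, add_zero]
        exact z2
      · intro ξ hξ
        rw [Set.mem_union, not_or] at hξ
        obtain ⟨hξ1, hξ2⟩ := hξ
        have hso : ξ ∈ (sorted (L.ql j) (L.x0 - L.w) (L.x0 + L.w) (N - L'.ql j) :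
            Set (Cfg N)) := by
          by_contra hc
          exact hξ1 hc
        have hct : cnt ξ (L.ql j) (N - L'.ql j) = cnt η (L.ql j) (N - L'.ql j) := by
          by_contra hc
          exact hξ2 hc
        refine ⟨?_, ?_, ?_⟩
        · intro k _ _ hk x x1 x2
          have := sl_ab_inj (hj.symm.trans hk)
          subst this
          exact hso.1 x x1 x2
        · intro k _ _ hk x x1 x2
          have := sl_ab_inj (hj'.symm.trans hk)
          subst this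
          rw [(hM N).2.1 ξ x (by omega), hso.2 (N - 1 - x) (by omega) (by omega)]
          rfl
        · have n1 : L.na (t + 1) = j := by
            rw [hj]
            exact sl_na_abs j1 j2
          have n2 : L'.na (t + 1) = j := by
            rw [hj']
            exact sl_na_abs j1 j2'
          rw [n1, n2]
          have d1 : L.dl j = max (L.ql j) (L.x0 - L.w) := by
            unfold LD.dl
            rw [if_neg (by omega)]
          have d2 : L'.dl j = max (L'.ql j) (L'.x0 - L'.w) := by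
            unfold LD.dl
            rw [if_neg (by omega)]
          have k1 : cnt ξ (L.ql j) (L.dl j) = 0 := by
            apply sl_cnt_zero
            intro x x1 x2
            exact hso.1 x x1 (by omega)
          have k2 : cnt ξ (N - L'.dl j) (N - L'.ql j) = N - L'.ql j - (N - L'.dl j) := by
            apply sl_cnt_full
            intro x x1 x2
            exact hso.2 x (by omega) x2
          have a3 := sl_cnt_add ξ (by omega : L.ql j ≤ L.dl j)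
            (by omega : L.dl j ≤ N - L'.dl j)
          have a4 := sl_cnt_add ξ (by omega : L.ql j ≤ N - L'.dl j)
            (by omega : N - L'.dl j ≤ N - L'.ql j)
          omega
    · have hno : ∀ j, 1 ≤ j → j ≤ L.n → t ≠ L.ab j := fun j j1 j2 hj => hab ⟨j, j1, j2, hj⟩
      have hno' : ∀ j, 1 ≤ j → j ≤ L'.n → t ≠ L'.ab j := fun j j1 j2 hj =>
        hab ⟨j, j1, h.n ▸ j2, (h.ab j) ▸ hj⟩
      obtain ⟨s1, s2⟩ := sl_P4 hS h hno
      refine ⟨{ξ | cnt ξ (L.dl (L.na t)) (N - L'.dl (L'.na t)) ≠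
        cnt η (L.dl (L.na t)) (N - L'.dl (L'.na t))}, ?_, ?_⟩
      · have z1 := hL.2.1 N r l (fun _ => sl_S N L L' t) τ (L.dl (L.na t))
          (N - L'.dl (L'.na t)) η (by omega) (by omega) fun _ => ⟨s1, s2⟩
        rw [z1]
        exact he2
      · intro ξ hξ
        have hct : cnt ξ (L.dl (L.na t)) (N - L'.dl (L'.na t)) =
            cnt η (L.dl (L.na t)) (N - L'.dl (L'.na t)) := by
          by_contra hc
          exact hξ hc
        refine ⟨fun j j1 j2 hj => absurd hj (hno j j1 j2),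
          fun j j1 j2 hj => absurd hj (hno' j j1 j2), ?_⟩
        rw [sl_na_same hno, sl_na_same hno', hct]
        exact i3
  have hsub : (sl_I L L' (t + 1) : Set (Cfg N))ᶜ ⊆
      ({ξ | ¬ sl_ok L t η ξ} ∪ {ξ | ¬ sl_ok L' t (mir η) (mir ξ)}) ∪ E := by
    intro ξ hξ
    by_contra hno
    apply hξ
    rw [Set.mem_union, Set.mem_union, not_or, not_or] at hno
    obtain ⟨⟨h1, h2⟩, h3⟩ := hno
    have o1 : sl_ok L t η ξ := by
      by_contra hc
      exact h1 hc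
    have o2 : sl_ok L' t (mir η) (mir ξ) := by
      by_contra hc
      exact h2 hc
    obtain ⟨o3, o4, o5⟩ := hE2 ξ h3
    exact ⟨hs.2.2.2.2.2.2.1 t η ξ i1 o1.1 o1.2 o3,
      hs'.2.2.2.2.2.2.1 t (mir η) (mir ξ) i2 o2.1 o2.2 o4, o5⟩
  refine (pr_mono hA _ τ hsub η).trans ((pr_union hA _ τ _ _ η).trans ?_)
  have b3 := pr_union hA (fun _ => sl_S N L L' t) τ {ξ | ¬ sl_ok L t η ξ}
    {ξ | ¬ sl_ok L' t (mir η) (mir ξ)} η
  linarith

/-- the schedule -/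
def sl_sch (N : ℕ) (L L' : LD) (τ : ℕ) : ℕ → Finset ℕ := fun k => sl_S N L L' (k / τ)

theorem sl_chain (h : Adm N r l) (L L' : LD) {b : ℝ} (hb : 0 ≤ b)
    (hslot : ∀ t (ξ : Cfg N), ξ ∈ (sl_I L L' t : Set (Cfg N)) →
      pr r l (fun _ => sl_S N L L' t) τ (sl_I L L' (t + 1))ᶜ ξ ≤ b)
    {η : Cfg N} (h0 : η ∈ (sl_I L L' 0 : Set (Cfg N))) (T : ℕ) :
    pr r l (sl_sch N L L' τ) (τ * T) (sl_I L L' T)ᶜ η ≤ T * b := by
  induction T with
  | zero =>
    have : pr r l (sl_sch N L L' τ) (τ * 0) (sl_I L L' 0)ᶜ η = 0 := by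
      unfold pr
      rw [mul_zero, ev_zero]
      apply ind_of_not_mem
      intro hc
      exact hc h0
    rw [this]
    simp
  | succ T ih =>
    have key := pr_cat_fail h (k := ht η 0) (sl_sch N L L' τ) (fun _ => sl_S N L L' T) (τ * T) τ
      (A := sl_I L L' T) (B := sl_I L L' (T + 1)) (η := η) rfl ih hb
      (fun ξ _ hξ => hslot T ξ hξ)
    have e : pr r l (sl_sch N L L' τ) (τ * (T + 1)) (sl_I L L' (T + 1))ᶜ η =
        pr r l (cat (τ * T) (sl_sch N L L' τ) (fun _ => sl_S N L L' T)) (τ * T + τ)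
          (sl_I L L' (T + 1))ᶜ η := by
      unfold pr
      rw [mul_add, mul_one]
      rw [ev_congr (σ := sl_sch N L L' τ)
        (σ' := cat (τ * T) (sl_sch N L L' τ) (fun _ => sl_S N L L' T))]
      intro i hi
      unfold cat
      split_ifs with hlt
      · rfl
      · unfold sl_sch
        have : i / τ = T := by
          have hτ : 0 < τ := by
            rcases Nat.eq_zero_or_pos τ with h0 | h0
            · subst h0
              omega
            · exact h0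
          apply Nat.div_eq_of_lt_le
          · rw [mul_comm]
            omega
          · rw [Nat.succ_mul, mul_comm]
            omega
        rw [this]
    rw [e]
    refine key.trans (le_of_eq ?_)
    push_cast
    ring

end main

theorem st_SL (hS : ST_SLA) (hL : ST_LOC) (hM : ST_MIR) : ST_SL := by
  intro N r l A B x0 w n τ e1 e2 L L' hA hl hAx hxB hBN hn he1 he2 hv hv' lA lx lw ln lA' lx'
    lw' ln' hMs H H' H2
  have h : sl_G N L L' := ⟨hv, hv', by omega, by omega, by omega, hMs⟩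
  have hs := hS N L h.v h.le
  have hs' := hS N L' h.v' h.symm.le
  have hnn := hv.n1
  have hnn' := hv'.n1
  refine ⟨sl_sch N L L' τ, fun i => ?_, fun η hη => ?_⟩
  · refine (sl_sub hS h (i / τ)).trans ?_
    have e1 : L.A = A := lA
    have e2 : N - L'.A = B := by omega
    rw [e1, e2]
  · have H2' : ∀ (l0 r0 : ℕ) (S : Finset ℕ) (η : Cfg N), L.x0 - 3 * L.w ≤ l0 → l0 < L.x0 →
        L.x0 < r0 → r0 ≤ L.x0 + 3 * L.w → L.A ≤ l0 → r0 ≤ N - L'.A →
        l0 ∉ S → r0 ∉ S → (∀ x, l0 < x → x < r0 → x ∈ S) → cnt η l0 r0 = r0 - L.x0 →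
        pr r l (fun _ => S) τ (sorted l0 (L.x0 - L.w) (L.x0 + L.w) r0)ᶜ η ≤ e2 := by
      intro l0 r0 S ζ c1 c2 c3 c4 c5 c6 c7 c8 c9 c10
      rw [lx, lw] at *
      exact H2 l0 r0 S ζ c1 c2 c3 c4 (by omega) (by omega) c7 c8 c9 c10
    have h0 : η ∈ (sl_I L L' 0 : Set (Cfg N)) := by
      refine ⟨hs.2.2.2.2.2.2.2.1 η fun x x1 x2 => ?_,
        hs'.2.2.2.2.2.2.2.1 (mir η) fun x x1 x2 => ?_, ?_⟩
      · rw [hη x (by omega) (by omega)]
        omega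
      · have a := hη (N - 1 - x) (by omega) (by omega)
        rw [(hM N).2.1 η x (by omega)]
        have b : occ η (N - 1 - x) = true ↔ ¬ (x < L'.A + L'.n) := by
          rw [a]
          omega
        cases hc : occ η (N - 1 - x)
        · rw [hc] at b
          simp only [Bool.false_eq_true, false_iff, not_not] at b
          simp [b]
        · rw [hc] at b
          simp only [true_iff] at b
          simp [b]
      · have n0 : L.na 0 = 0 := by simp [LD.na]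
        have n0' : L'.na 0 = 0 := by simp [LD.na]
        have d0 : L.dl 0 = L.x0 := by simp [LD.dl]
        have d0' : L'.dl 0 = L'.x0 := by simp [LD.dl]
        rw [n0, n0', d0, d0']
        have : N - L'.x0 = L.x0 := by omega
        rw [this]
        simp [cnt]
    have hb : (0 : ℝ) ≤ 2 * L.n * e1 + e2 := by positivity
    have key := sl_chain hA L L' (τ := τ) hb
      (fun t ξ hξ => sl_slot hS hL hM h hA he1 he2 H H' H2' hξ) h0 (3 * n + (L.M + L.s) + 2)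
    rw [ln] at key
    refine le_trans (pr_mono hA _ _ ?_ η) key
    intro ξ hξ hc
    apply hξ
    have eT : 3 * n + (L.M + L.s) + 2 = L.ab L.n + 1 := by
      unfold LD.ab
      omega
    have eT' : 3 * n + (L.M + L.s) + 2 = L'.ab L'.n + 1 := by
      unfold LD.ab
      omega
    obtain ⟨k1, k2, -⟩ := hc
    have f1 := hs.2.2.2.2.2.2.2.2.1 ξ (by omega) (eT ▸ k1)
    have f2 := hs'.2.2.2.2.2.2.2.2.1 (mir ξ) (by omega) (eT' ▸ k2)
    refine ⟨fun i i1 i2 => f1 i (by omega) (by omega), fun i i1 i2 => ?_⟩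
    have g := f2 (N - 1 - i) (by omega) (by omega)
    rw [(hM N).2.1 ξ (N - 1 - i) (by omega)] at g
    have e : N - 1 - (N - 1 - i) = i := by omega
    rw [e] at g
    simpa using g


end Pool.Agent.Helper98.EX
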